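import Mathlib
import Pool.Agent.NH29.VE.Alg
import Pool.Agent.TH954.Ht

set_option autoImplicit false

/-!
A polynomial which vanishes at many points `(…, X (a s), …, X (b s), …)` has large degree.
-/

namespace Pool.Agent.NH29.HY

open MvPolynomial Pool.Agent.NH29.VE

variable {k : Type} [Field k]

theorem alg2 {n : ℕ} (G : MvPolynomial (Fin n) k) (hG : G ≠ 0) {i j : Fin n} (hij : i ≠ j)
    (X : ℕ → k) (hX : ∀ m m', 0 < m → 0 < m' → X m = X m' → m = m') (Z : ℕ → k)
    (hZ : Function.Injective Z) (S : Finset (ℕ × ℕ))
    (hS : ∀ p ∈ S, 0 < p.1 ∧ 0 < p.2 ∧ Nat.Coprime p.1 p.2)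
    (h : ∀ r : Fin n → ℕ, ∃ t₀ : ℕ, ∀ s : ℕ, t₀ ≤ s → 0 < s → ∀ p ∈ S,
      eval (Function.update (Function.update (fun l => Z (r l)) i (X (p.1 * s))) j
        (X (p.2 * s))) G = 0) :
    S.card ≤ G.degreeOf j := by
  classical
  by_contra hlt
  rw [not_le] at hlt
  apply hG
  set A : Set k := Set.range Z with hA
  have hAinf : A.Infinite := Set.infinite_range_of_injective hZ
  refine funext_set (fun l => if l = i ∨ l = j then Set.univ else A) ?_ ?_
  · intro l
    split_ifs
    · exact hAinf.mono (Set.subset_univ _)
    · exact hAinf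
  · intro x hx
    rw [map_zero]
    -- choose the indices
    have hr : ∀ l, ∃ m, l ≠ i → l ≠ j → x l = Z m := by
      intro l
      by_cases hl : l = i ∨ l = j
      · exact ⟨1, fun h1 h2 => by rcases hl with hl | hl <;> contradiction⟩
      · have h1 := hx l (Set.mem_univ l)
        dsimp only at h1
        rw [if_neg hl] at h1
        obtain ⟨m, hm2⟩ := h1
        exact ⟨m, fun _ _ => hm2.symm⟩
    choose r hr1 using hr
    obtain ⟨t₀, ht₀⟩ := h r
    set N : ℕ := ∏ p ∈ S, p.1 with hN
    have hN0 : 0 < N := Finset.prod_pos fun p hp => (hS p hp).1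
    have hdvd : ∀ p ∈ S, p.1 ∣ N := fun p hp => Finset.dvd_prod_of_mem (fun p : ℕ × ℕ => p.1) hp
    have key : ∀ t : ℕ, t₀ ≤ t → 0 < t → ∀ y : k,
        eval (Function.update (Function.update (fun l => Z (r l)) i (X (N * t))) j y) G = 0 := by
      intro t ht ht0 y
      set c := Function.update (fun l => Z (r l)) i (X (N * t)) with hc
      have hz : par c j G = 0 := by
        by_contra hne
        set f : ℕ × ℕ → k := fun p => X (p.2 * (N / p.1) * t) with hf
        have hpos : ∀ p ∈ S, 0 < N / p.1 := fun p hp =>
          Nat.div_pos (Nat.le_of_dvd hN0 (hdvd p hp)) (hS p hp).1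
        have hinj : Set.InjOn f S := by
          intro p hp q hq e
          have h1 := hX _ _ (Nat.mul_pos (Nat.mul_pos (hS p hp).2.1 (hpos p hp)) ht0)
            (Nat.mul_pos (Nat.mul_pos (hS q hq).2.1 (hpos q hq)) ht0) e
          have h2 : p.2 * (N / p.1) = q.2 * (N / q.1) := Nat.eq_of_mul_eq_mul_right ht0 h1
          have h3 : p.2 * q.1 = q.2 * p.1 := by
            have e1 := Nat.div_mul_cancel (hdvd p hp)
            have e2 := Nat.div_mul_cancel (hdvd q hq)
            have e3 : p.2 * q.1 * N = q.2 * p.1 * N := by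
              calc p.2 * q.1 * N = p.2 * q.1 * (N / p.1 * p.1) := by rw [e1]
                _ = p.2 * (N / p.1) * (q.1 * p.1) := by ring
                _ = q.2 * (N / q.1) * (q.1 * p.1) := by rw [h2]
                _ = q.2 * p.1 * (N / q.1 * q.1) := by ring
                _ = q.2 * p.1 * N := by rw [e2]
            exact Nat.eq_of_mul_eq_mul_right hN0 e3
          obtain ⟨-, -, cp⟩ := hS p hp
          obtain ⟨-, -, cq⟩ := hS q hq
          have d1 : p.1 ∣ q.1 := by
            apply cp.dvd_of_dvd_mul_left
            rw [h3]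
            exact Dvd.intro_left _ rfl
          have d2 : q.1 ∣ p.1 := by
            apply cq.dvd_of_dvd_mul_left
            rw [← h3]
            exact Dvd.intro_left _ rfl
          have e1 : p.1 = q.1 := Nat.dvd_antisymm d1 d2
          have e2 : p.2 = q.2 := by
            rw [e1] at h3
            exact Nat.eq_of_mul_eq_mul_right (hS q hq).1 h3
          exact Prod.ext e1 e2
        have hroots : S.image f ⊆ (par c j G).roots.toFinset := by
          intro z hz
          obtain ⟨p, hp, rfl⟩ := Finset.mem_image.1 hz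
          rw [Multiset.mem_toFinset, Polynomial.mem_roots hne, Polynomial.IsRoot, eval_par]
          have h1 := ht₀ (N / p.1 * t) (ht.trans (Nat.le_mul_of_pos_left t (hpos p hp)))
            (Nat.mul_pos (hpos p hp) ht0) p hp
          have h2 : p.1 * (N / p.1 * t) = N * t := by
            rw [← mul_assoc, Nat.mul_div_cancel' (hdvd p hp)]
          have h3 : p.2 * (N / p.1 * t) = p.2 * (N / p.1) * t := by ring
          rw [h2, h3] at h1
          exact h1
        have h1 : S.card ≤ (par c j G).natDegree := by
          calc S.card = (S.image f).card := (Finset.card_image_of_injOn hinj).symm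
            _ ≤ (par c j G).roots.toFinset.card := Finset.card_le_card hroots
            _ ≤ (par c j G).roots.card := Multiset.toFinset_card_le _
            _ ≤ _ := Polynomial.card_roots' _
        exact absurd (h1.trans (natDegree_par c j G)) (not_le.2 hlt)
      rw [← eval_par, hz, Polynomial.eval_zero]
    -- the variable `i`
    set c := Function.update (fun l => Z (r l)) j (x j) with hc
    have hz : par c i G = 0 := by
      apply Polynomial.eq_zero_of_infinite_isRoot
      have hinf : (X '' ((fun t => N * t) '' {t | t₀ < t})).Infinite := by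
        refine Set.Infinite.image ?_ ?_
        · rintro _ ⟨t, ht, rfl⟩ _ ⟨t', ht', rfl⟩ e
          exact hX _ _ (Nat.mul_pos hN0 (lt_of_le_of_lt (Nat.zero_le _) ht))
            (Nat.mul_pos hN0 (lt_of_le_of_lt (Nat.zero_le _) ht')) e
        · refine Set.Infinite.image (fun t _ t' _ e => Nat.eq_of_mul_eq_mul_left hN0 e) ?_
          exact Set.infinite_of_not_bddAbove (fun ⟨b, hb⟩ => by
            have := hb (show (b + t₀ + 1) ∈ {m : ℕ | t₀ < m} by
              show t₀ < b + t₀ + 1
              omega)
            omega)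
      refine hinf.mono ?_
      rintro _ ⟨_, ⟨t, ht, rfl⟩, rfl⟩
      show (par c i G).IsRoot _
      rw [Polynomial.IsRoot, eval_par, hc, Function.update_comm hij.symm]
      exact key t (le_of_lt ht) (lt_of_le_of_lt (Nat.zero_le _) ht) _
    have h1 : eval (Function.update c i (x i)) G = 0 := by
      rw [← eval_par, hz, Polynomial.eval_zero]
    have h2 : Function.update c i (x i) = x := by
      funext l
      by_cases hi : l = i
      · rw [hi, Function.update_self]
      · rw [Function.update_of_ne hi, hc]
        by_cases hj : l = j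
        · rw [hj, Function.update_self]
        · rw [Function.update_of_ne hj]
          exact (hr1 l hi hj).symm
    rw [h2] at h1
    exact h1

lemma q_lin {A : Type} [AddCommGroup A] {q : A → ℝ}
    (hq : ∀ P Q, q (P + Q) + q (P - Q) = 2 * (q P + q Q)) (Q T : A) :
    ∃ β : ℝ, ∀ m : ℕ, q (Q + m • T) = q Q + m * β + (m : ℝ) ^ 2 * q T := by
  obtain ⟨B, hB, hs⟩ := H437R2.Man.MW.polar q hq
  refine ⟨2 * B Q T, fun m => ?_⟩
  have h1 : B (Q + m • T) (Q + m • T) = B Q Q + m * (2 * B Q T) + (m : ℝ) ^ 2 * B T T := by
    have h2 : B (Q + m • T) = B Q + m • B T := by rw [map_add, map_nsmul]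
    rw [h2]
    simp only [AddMonoidHom.add_apply, AddMonoidHom.nsmul_apply, map_add, map_nsmul, nsmul_eq_mul]
    rw [hs T Q]
    ring
  rw [← hB, h1, hB, hB]

end Pool.Agent.NH29.HY
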