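import Mathlib
import Pool.Agent.NH29.VE.Quad

set_option autoImplicit false
set_option linter.unusedSectionVars false

/-!
Sums over all the places of a number field.
-/

namespace Pool.Agent.NH29.HY

open NumberField WeierstrassCurve IsDedekindDomain Height Function Module
open Pool.Agent.TH942 Pool.Agent.TH954 Pool.Agent.NH29.VE

section

variable {K : Type} [Field K] [NumberField K]

/-- the sum over all the places -/
noncomputable def sm (a : FinitePlace K → ℝ) (b : InfinitePlace K → ℝ) : ℝ :=
  ∑ᶠ v, a v + ∑ w, (w.mult : ℝ) * b w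

lemma sm_add {a a' : FinitePlace K → ℝ} {b b' : InfinitePlace K → ℝ}
    (ha : a.HasFiniteSupport) (ha' : a'.HasFiniteSupport) :
    sm (fun v => a v + a' v) (fun w => b w + b' w) = sm a b + sm a' b' := by
  unfold sm
  rw [finsum_add_distrib ha ha']
  simp_rw [mul_add]
  rw [Finset.sum_add_distrib]
  ring

lemma sm_mul (c : ℝ) (a : FinitePlace K → ℝ) (b : InfinitePlace K → ℝ) :
    sm (fun v => c * a v) (fun w => c * b w) = c * sm a b := by
  unfold sm
  have h : ∑ᶠ v, c * a v = c * ∑ᶠ v, a v := by
    have := smul_finsum c a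
    simpa only [smul_eq_mul] using this.symm
  rw [h, mul_add, Finset.mul_sum]
  congr 1
  refine Finset.sum_congr rfl fun w _ => ?_
  ring

lemma sm_le {a a' : FinitePlace K → ℝ} {b b' : InfinitePlace K → ℝ}
    (ha : a.HasFiniteSupport) (ha' : a'.HasFiniteSupport) (h : ∀ v, a v ≤ a' v)
    (h' : ∀ w, b w ≤ b' w) : sm a b ≤ sm a' b' := by
  unfold sm
  have h1 := finsum_le_finsum' ha ha' h
  have h2 : ∑ w, (w.mult : ℝ) * b w ≤ ∑ w, (w.mult : ℝ) * b' w :=
    Finset.sum_le_sum fun w _ => mul_le_mul_of_nonneg_left (h' w) (Nat.cast_nonneg _)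
  linarith

/-- the logarithm of a product over all the places -/
lemma sm_log {f : FinitePlace K → ℝ} {g : InfinitePlace K → ℝ} (hf : ∀ v, 0 < f v)
    (hg : ∀ w, 0 < g w) :
    sm (fun v => Real.log (f v)) (fun w => Real.log (g w)) =
      Real.log ((∏ w, g w ^ w.mult) * ∏ᶠ v, f v) := by
  have h1 : 0 < ∏ᶠ v, f v := finprod_induction (fun x : ℝ => 0 < x) one_pos
    (fun _ _ h1 h2 => mul_pos h1 h2) hf
  have h2 : 0 < ∏ w, g w ^ w.mult := Finset.prod_pos fun w _ => pow_pos (hg w) _
  rw [Real.log_mul h2.ne' h1.ne', Real.log_finprod hf,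
    Real.log_prod (fun w _ => (pow_pos (hg w) _).ne')]
  unfold sm
  rw [add_comm]
  congr 1
  refine Finset.sum_congr rfl fun w _ => ?_
  rw [Real.log_pow]

lemma log_supp {f : FinitePlace K → ℝ} (h : f.HasFiniteMulSupport) :
    (fun v => Real.log (f v)).HasFiniteSupport := by
  refine Set.Finite.subset h ?_
  intro v hv hc
  apply hv
  have : f v = 1 := hc
  show Real.log (f v) = 0
  rw [this, Real.log_one]

lemma sm_abs {x : K} (hx : x ≠ 0) :
    sm (fun v : FinitePlace K => Real.log (v.val x)) (fun w : InfinitePlace K => Real.log (w.val x))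
      = 0 := by
  have h1 : ∀ v : FinitePlace K, 0 < v.val x := fun v => v.val.pos hx
  have h2 : ∀ w : InfinitePlace K, 0 < w.val x := fun w => w.val.pos hx
  rw [sm_log h1 h2]
  have h3 : (∏ w : InfinitePlace K, w.val x ^ w.mult) * ∏ᶠ v : FinitePlace K, v.val x = 1 :=
    prod_abs_eq_one hx
  rw [h3, Real.log_one]

lemma abs_supp {x : K} (hx : x ≠ 0) :
    (fun v : FinitePlace K => Real.log (v.val x)).HasFiniteSupport :=
  log_supp (FinitePlace.hasFiniteMulSupport hx)

lemma sm_xm {a b : K} (P : SPt a b) :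
    sm (fun v : FinitePlace K => Real.log (xm v.val P))
      (fun w : InfinitePlace K => Real.log (xm w.val P)) = sht P := by
  rw [sm_log (fun v => zero_lt_one.trans_le (one_le_xm _ _))
    (fun w => zero_lt_one.trans_le (one_le_xm _ _))]
  unfold sht
  rw [logHeight_eq_log_mulHeight]
  congr 1
  exact (NumberField.mulHeight_eq P.xRep_ne_zero).symm

lemma xm_supp {a b : K} (P : SPt a b) :
    (fun v : FinitePlace K => Real.log (xm v.val P)).HasFiniteSupport :=
  log_supp (xm_fin P)

/-- a function on the finite places with support in a finite set -/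
lemma fs_of_subset {a : FinitePlace K → ℝ} (V : Finset (FinitePlace K))
    (h : ∀ v, v ∉ V → a v = 0) : a.HasFiniteSupport := by
  refine Set.Finite.subset V.finite_toSet ?_
  intro v hv
  by_contra hc
  exact hv (h v hc)

lemma fs_add {a a' : FinitePlace K → ℝ} (ha : a.HasFiniteSupport) (ha' : a'.HasFiniteSupport) :
    (fun v => a v + a' v).HasFiniteSupport := HasFiniteSupport.add ha ha'

lemma fs_mul (c : ℝ) {a : FinitePlace K → ℝ} (ha : a.HasFiniteSupport) :
    (fun v => c * a v).HasFiniteSupport :=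
  Set.Finite.subset ha fun v hv hc => hv (by
    have : a v = 0 := hc
    show c * a v = 0
    rw [this, mul_zero])

lemma sm_fin {a : FinitePlace K → ℝ} (V : Finset (FinitePlace K)) (h : ∀ v, v ∉ V → a v = 0)
    (b : InfinitePlace K → ℝ) :
    sm a b = ∑ v ∈ V, a v + ∑ w, (w.mult : ℝ) * b w := by
  unfold sm
  congr 1
  refine finsum_eq_sum_of_support_subset _ ?_
  intro v hv
  by_contra hc
  exact hv (h v hc)

end

end Pool.Agent.NH29.HY
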