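import Mathlib
import Pool.Agent.NH29.HY.Sm

set_option autoImplicit false
set_option linter.unusedSectionVars false

/-!
Points `Q + R` with `R` near the origin, and values of a polynomial which vanishes at `x(Q)`.
-/

namespace Pool.Agent.NH29.HY

open NumberField WeierstrassCurve IsDedekindDomain Height Function Module
open Pool.Agent.TH942 Pool.Agent.TH954 Pool.Agent.NH29.VE

section alg

variable {K : Type} [Field K] [CharZero K] [DecidableEq K] {A B ρ η : K}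

lemma near_id (hQ : (sw A B).toAffine.Nonsingular ρ η) {R : SPt A B} (hR : R ≠ 0)
    (hQR : Affine.Point.some ρ η hQ + R ≠ 0) (hx : xc R ≠ ρ) :
    (xc (Affine.Point.some ρ η hQ + R) - ρ) * (xc R - ρ) ^ 2 =
      (A + 3 * ρ ^ 2) * xc R + (B - 2 * ρ ^ 3 + η ^ 2) - 2 * η * yc R := by
  obtain ⟨x, y, h, rfl⟩ := exists_some hR
  obtain ⟨X, Y, H, hX⟩ := exists_some hQR
  rw [hX]
  have hx' : ρ ≠ x := fun h => hx h.symm
  have h1 := sw_short.add_ne hX hx'
  show (X - ρ) * (x - ρ) ^ 2 = (A + 3 * ρ ^ 2) * x + (B - 2 * ρ ^ 3 + η ^ 2) - 2 * η * y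
  have e := sw_eqn.mp h.1
  have h2 : ρ - x ≠ 0 := sub_ne_zero.2 hx'
  have h3 : X * (ρ - x) ^ 2 = (η - y) ^ 2 - (ρ + x) * (ρ - x) ^ 2 := by
    rw [h1]
    field_simp
    ring
  linear_combination h3 + e

end alg

section na

variable {K : Type} [Field K] [CharZero K] [DecidableEq K] {A B ρ η : K}
  {v : AbsoluteValue K ℝ} (hna : ∀ x y, v (x + y) ≤ max (v x) (v y))

include hna

/-- a good place -/
lemma near_good (hA : v A ≤ 1) (hB : v B ≤ 1) (hρ : v ρ ≤ 1) (hη : v η ≤ 1)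
    (hQ : (sw A B).toAffine.Nonsingular ρ η) {R : SPt A B} (hR : R ≠ 0)
    (hQR : Affine.Point.some ρ η hQ + R ≠ 0) (hx : 1 < v (xc R)) :
    v (xc (Affine.Point.some ρ η hQ + R) - ρ) ^ 2 * v (xc R) ≤ 1 := by
  have hne : xc R ≠ ρ := by
    rintro h
    rw [h] at hx
    linarith
  have hid := near_id hQ hR hQR hne
  have e := eqn_of_ne hR
  set x := xc R with hxd
  set y := yc R with hyd
  set z := xc (Affine.Point.some ρ η hQ + R) - ρ with hz
  set t := v x with ht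
  have ht0 : 0 < t := by linarith
  have h1 : v (x - ρ) = t := na_sub_eq hna (lt_of_le_of_lt hρ hx)
  have ht3 : t < t ^ 3 := by
    have : 0 < t ^ 2 - 1 := by nlinarith
    nlinarith [mul_pos ht0 this]
  have hy2 : v y ^ 2 = t ^ 3 := by
    rw [← v.map_pow, e, add_assoc, na_add_eq hna, v.map_pow]
    rw [v.map_pow]
    exact na_add_lt hna (lt_of_le_of_lt (na_mul hA le_rfl) ht3)
      (lt_of_le_of_lt hB (hx.trans ht3))
  have hyt : t ≤ v y := by
    by_contra hc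
    rw [not_le] at hc
    have h2 : v y ^ 2 < t ^ 2 := pow_lt_pow_left₀ hc (v.nonneg y) two_ne_zero
    have h3 : t ^ 2 ≤ t ^ 3 := pow_le_pow_right₀ hx.le (by norm_num)
    rw [hy2] at h2
    exact absurd h2 (not_lt.2 h3)
  have hy1 : 1 ≤ v y := hx.le.trans hyt
  have u2 : v (2 : K) ≤ 1 := by exact_mod_cast na_nat hna 2
  have u3 : v (3 : K) ≤ 1 := by exact_mod_cast na_nat hna 3
  have hp : ∀ n : ℕ, v (ρ ^ n) ≤ 1 := fun n => by
    rw [v.map_pow]; exact pow_le_one₀ (v.nonneg _) hρ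
  have hη2 : v (η ^ 2) ≤ 1 := by rw [v.map_pow]; exact pow_le_one₀ (v.nonneg _) hη
  have b1 : v ((A + 3 * ρ ^ 2) * x) ≤ v y :=
    na_mul (na_add hna hA (na_mul u3 (hp 2))) hyt
  have b2 : v (B - 2 * ρ ^ 3 + η ^ 2) ≤ v y :=
    (na_add hna (na_sub hna hB (na_mul u2 (hp 3))) hη2).trans hy1
  have b3 : v (2 * η * y) ≤ v y := na_mul (na_mul u2 hη) le_rfl
  have b4 := na_sub hna (na_add hna b1 b2) b3
  rw [← hid, v.map_mul, v.map_pow, h1] at b4
  have hz0 := v.nonneg z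
  have b5 : (v z * t ^ 2) ^ 2 ≤ t ^ 3 := by
    rw [← hy2]
    exact pow_le_pow_left₀ (by positivity) b4 2
  have b6 : v z ^ 2 * t * t ^ 3 ≤ 1 * t ^ 3 := by
    calc v z ^ 2 * t * t ^ 3 = (v z * t ^ 2) ^ 2 := by ring
      _ ≤ _ := by rw [one_mul]; exact b5
  exact le_of_mul_le_mul_right b6 (by positivity)

lemma na_sum_lt {ι : Type} (s : Finset ι) (g : ι → K) {M : ℝ} (hM : 0 < M)
    (h : ∀ i ∈ s, v (g i) < M) : v (∑ i ∈ s, g i) < M := by
  classical
  induction s using Finset.induction_on with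
  | empty => rw [Finset.sum_empty, v.map_zero]; exact hM
  | insert a s ha ih =>
    rw [Finset.sum_insert ha]
    exact na_add_lt hna (h _ (Finset.mem_insert_self _ _))
      (ih fun i hi => h _ (Finset.mem_insert_of_mem hi))

lemma na_sum_le {ι : Type} (s : Finset ι) (g : ι → K) {M : ℝ} (hM : 0 ≤ M)
    (h : ∀ i ∈ s, v (g i) ≤ M) : v (∑ i ∈ s, g i) ≤ M := by
  classical
  induction s using Finset.induction_on with
  | empty => rw [Finset.sum_empty, v.map_zero]; exact hM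
  | insert a s ha ih =>
    rw [Finset.sum_insert ha]
    exact na_add hna (h _ (Finset.mem_insert_self _ _))
      (ih fun i hi => h _ (Finset.mem_insert_of_mem hi))

lemma poly_na (f : Polynomial K) {d : ℕ} (hd : f.natDegree ≤ d) (hf : ∀ i, v (f.coeff i) ≤ 1)
    (x : K) : v (f.eval x) ≤ (max (v x) 1) ^ d := by
  have hm : 1 ≤ max (v x) 1 := le_max_right _ _
  rw [Polynomial.eval_eq_sum_range' (n := d + 1) (by omega)]
  refine na_sum_le hna _ _ (by positivity) fun i hi => ?_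
  rw [Finset.mem_range] at hi
  refine na_mul (hf i) ?_
  rw [v.map_pow]
  calc v x ^ i ≤ (max (v x) 1) ^ i := pow_le_pow_left₀ (v.nonneg _) (le_max_left _ _) _
    _ ≤ _ := pow_le_pow_right₀ hm (by omega)

lemma poly_dom (f : Polynomial K) (hf : ∀ i, v (f.coeff i) ≤ 1) (hl : v f.leadingCoeff = 1)
    {x : K} (hx : 1 < v x) : v (f.eval x) = v x ^ f.natDegree := by
  rw [Polynomial.eval_eq_sum_range, Finset.sum_range_succ, add_comm]
  have h1 : v (f.coeff f.natDegree * x ^ f.natDegree) = v x ^ f.natDegree := by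
    rw [v.map_mul, v.map_pow]
    have : v (f.coeff f.natDegree) = 1 := hl
    rw [this, one_mul]
  rw [na_add_eq hna, h1]
  rw [h1]
  refine na_sum_lt hna _ _ (by positivity) fun i hi => ?_
  rw [Finset.mem_range] at hi
  refine lt_of_le_of_lt (na_mul (hf i) le_rfl) ?_
  rw [v.map_pow]
  exact pow_lt_pow_right₀ hx hi

end na

section arch

variable {K : Type} [Field K] [CharZero K] [DecidableEq K] {A B ρ η : K}

lemma abs_nat (v : AbsoluteValue K ℝ) (n : ℕ) : v (n : K) ≤ n := by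
  induction n with
  | zero => rw [Nat.cast_zero, v.map_zero, Nat.cast_zero]
  | succ n ih =>
    rw [Nat.cast_succ, Nat.cast_succ]
    have := v.add_le (n : K) 1
    rw [v.map_one] at this
    linarith

lemma abs_sub_le' (v : AbsoluteValue K ℝ) (x y : K) : v (x - y) ≤ v x + v y := by
  have := v.add_le x (-y)
  rwa [v.map_neg, ← sub_eq_add_neg] at this

lemma real_near {s t z w : ℝ} (hs1 : 1 ≤ s) (ht1 : 1 < t) (hz0 : 0 ≤ z)
    (hw2 : w ^ 2 ≤ s * t ^ 3) (b5 : z * (t / 2) ^ 2 ≤ 4 * s ^ 2 * t + 4 * s ^ 3 + 2 * s * w) :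
    z ^ 2 * t ≤ 1728 * s ^ 6 := by
  have hs0 : 0 < s := by linarith
  have ht0 : 0 < t := by linarith
  have t3 : 1 ≤ t ^ 3 := one_le_pow₀ ht1.le
  have t23 : t ^ 2 ≤ t ^ 3 := pow_le_pow_right₀ ht1.le (by norm_num)
  have hs36 : s ^ 3 ≤ s ^ 6 := pow_le_pow_right₀ hs1 (by norm_num)
  have hs46 : s ^ 4 ≤ s ^ 6 := pow_le_pow_right₀ hs1 (by norm_num)
  have h2 : (z * (t / 2) ^ 2) ^ 2 ≤ (4 * s ^ 2 * t + 4 * s ^ 3 + 2 * s * w) ^ 2 :=
    pow_le_pow_left₀ (by positivity) b5 2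
  have h3 : ∀ a b c : ℝ, (a + b + c) ^ 2 ≤ 3 * (a ^ 2 + b ^ 2 + c ^ 2) := by
    intro a b c
    nlinarith [sq_nonneg (a - b), sq_nonneg (a - c), sq_nonneg (b - c)]
  have h3' := h3 (4 * s ^ 2 * t) (4 * s ^ 3) (2 * s * w)
  have h4 : (4 * s ^ 2 * t) ^ 2 ≤ 16 * (s ^ 6 * t ^ 3) := by
    calc (4 * s ^ 2 * t) ^ 2 = 16 * (s ^ 4 * t ^ 2) := by ring
      _ ≤ _ := by
        refine mul_le_mul_of_nonneg_left ?_ (by norm_num)
        exact mul_le_mul hs46 t23 (by positivity) (by positivity)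
  have h5 : (4 * s ^ 3) ^ 2 ≤ 16 * (s ^ 6 * t ^ 3) := by
    calc (4 * s ^ 3) ^ 2 = 16 * (s ^ 6 * 1) := by ring
      _ ≤ _ := by
        refine mul_le_mul_of_nonneg_left ?_ (by norm_num)
        exact mul_le_mul_of_nonneg_left t3 (by positivity)
  have h6 : (2 * s * w) ^ 2 ≤ 4 * (s ^ 6 * t ^ 3) := by
    calc (2 * s * w) ^ 2 = 4 * (s ^ 2 * w ^ 2) := by ring
      _ ≤ 4 * (s ^ 2 * (s * t ^ 3)) := by
        refine mul_le_mul_of_nonneg_left ?_ (by norm_num)
        exact mul_le_mul_of_nonneg_left hw2 (by positivity)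
      _ = 4 * (s ^ 3 * t ^ 3) := by ring
      _ ≤ _ := by
        refine mul_le_mul_of_nonneg_left ?_ (by norm_num)
        exact mul_le_mul_of_nonneg_right hs36 (by positivity)
  have b6 : (z * (t / 2) ^ 2) ^ 2 ≤ 108 * s ^ 6 * t ^ 3 := by linarith
  have b7 : z ^ 2 * t * t ^ 3 ≤ 1728 * s ^ 6 * t ^ 3 := by
    calc z ^ 2 * t * t ^ 3 = 16 * (z * (t / 2) ^ 2) ^ 2 := by ring
      _ ≤ 16 * (108 * s ^ 6 * t ^ 3) := mul_le_mul_of_nonneg_left b6 (by norm_num)
      _ = _ := by ring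
  exact le_of_mul_le_mul_right b7 (by positivity)

/-- any place -/
lemma near_bad (v : AbsoluteValue K ℝ) (hQ : (sw A B).toAffine.Nonsingular ρ η) :
    ∃ D : ℝ, 1 ≤ D ∧ ∀ R : SPt A B, R ≠ 0 → Affine.Point.some ρ η hQ + R ≠ 0 → xc R ≠ ρ →
      v (xc (Affine.Point.some ρ η hQ + R) - ρ) ^ 2 * xm v R ≤
        D * xm v (Affine.Point.some ρ η hQ + R) ^ 2 := by
  set s : ℝ := 1 + v A + v B + v ρ + v η with hs
  have hA0 := v.nonneg A
  have hB0 := v.nonneg B
  have hρ0 := v.nonneg ρ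
  have hη0 := v.nonneg η
  have hs1 : 1 ≤ s := by rw [hs]; linarith
  have hs0 : 0 < s := by linarith
  refine ⟨1728 * s ^ 6, ?_, ?_⟩
  · have : 1 ≤ s ^ 6 := one_le_pow₀ hs1
    linarith
  intro R hR hQR hne
  have hid := near_id hQ hR hQR hne
  obtain ⟨X, Y, H, hX⟩ := exists_some hQR
  have e := eqn_of_ne hR
  have exm : xm v R = max (v (xc R)) 1 := by
    obtain ⟨x, y, h, rfl⟩ := exists_some hR
    exact xm_some v h
  rw [exm]
  rw [hX] at hid ⊢
  rw [xm_some]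
  have hxcX : xc (Affine.Point.some X Y H : SPt A B) = X := rfl
  rw [hxcX] at hid ⊢
  set x := xc R with hxd
  set y := yc R with hyd
  set m : ℝ := max (v X) 1 with hm
  have hm1 : 1 ≤ m := le_max_right _ _
  have hvX : v X ≤ m := le_max_left _ _
  set z := X - ρ with hz
  have hz0 := v.nonneg z
  have hs6 : s ^ 3 ≤ s ^ 6 := pow_le_pow_right₀ hs1 (by norm_num)
  rcases le_or_gt (v x) (2 * s) with hc | hc
  · have b1 : v z ≤ s * m := by
      have h1 := abs_sub_le' v X ρ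
      have h2 : v ρ ≤ (s - 1) * m := by
        have : v ρ ≤ s - 1 := by rw [hs]; linarith
        nlinarith
      calc v z ≤ v X + v ρ := h1
        _ ≤ m + (s - 1) * m := add_le_add hvX h2
        _ = s * m := by ring
    have b2 : max (v x) 1 ≤ 2 * s := max_le hc (by linarith)
    calc v z ^ 2 * max (v x) 1 ≤ (s * m) ^ 2 * (2 * s) :=
          mul_le_mul (pow_le_pow_left₀ hz0 b1 2) b2 (by positivity) (by positivity)
      _ = 2 * s ^ 3 * m ^ 2 := by ring
      _ ≤ 1728 * s ^ 6 * m ^ 2 := by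
          refine mul_le_mul_of_nonneg_right ?_ (by positivity)
          have : 0 < s ^ 3 := by positivity
          linarith
  · have ht1 : 1 < v x := by linarith
    set t := v x with ht
    have ht0 : 0 < t := by linarith
    rw [max_eq_left ht1.le]
    have h1 : t / 2 ≤ v (x - ρ) := by
      have h2 := abs_sub_le' v (x - ρ) (-ρ)
      rw [v.map_neg, sub_neg_eq_add, sub_add_cancel] at h2
      have h3 : v ρ ≤ s := by rw [hs]; linarith
      linarith
    have t3 : 1 ≤ t ^ 3 := one_le_pow₀ ht1.le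
    have t13 : t ≤ t ^ 3 := by
      have : t ^ 1 ≤ t ^ 3 := pow_le_pow_right₀ ht1.le (by norm_num)
      rwa [pow_one] at this
    have t23 : t ^ 2 ≤ t ^ 3 := pow_le_pow_right₀ ht1.le (by norm_num)
    have hy2 : v y ^ 2 ≤ s * t ^ 3 := by
      rw [← v.map_pow, e]
      have h2 := v.add_le (x ^ 3 + A * x) B
      have h3 := v.add_le (x ^ 3) (A * x)
      rw [v.map_pow, v.map_mul] at h3
      have h4 : v A * t ≤ v A * t ^ 3 := mul_le_mul_of_nonneg_left t13 hA0
      have h5 : v B ≤ v B * t ^ 3 := le_mul_of_one_le_right hB0 t3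
      have h6 : (1 + v A + v B) * t ^ 3 ≤ s * t ^ 3 := by
        refine mul_le_mul_of_nonneg_right ?_ (by positivity)
        rw [hs]; linarith
      calc v (x ^ 3 + A * x + B) ≤ t ^ 3 + v A * t + v B := by linarith
        _ ≤ (1 + v A + v B) * t ^ 3 := by linarith
        _ ≤ _ := h6
    have u2 : v (2 : K) ≤ 2 := by exact_mod_cast abs_nat v 2
    have u3 : v (3 : K) ≤ 3 := by exact_mod_cast abs_nat v 3
    have hρs : v ρ ≤ s := by rw [hs]; linarith
    have hηs : v η ≤ s := by rw [hs]; linarith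
    have hAs : v A ≤ s := by rw [hs]; linarith
    have hBs : v B ≤ s := by rw [hs]; linarith
    have ss : s ≤ s ^ 2 := by
      have : s ^ 1 ≤ s ^ 2 := pow_le_pow_right₀ hs1 (by norm_num)
      rwa [pow_one] at this
    have sss : s ^ 2 ≤ s ^ 3 := pow_le_pow_right₀ hs1 (by norm_num)
    have b1 : v ((A + 3 * ρ ^ 2) * x) ≤ 4 * s ^ 2 * t := by
      rw [v.map_mul]
      refine mul_le_mul_of_nonneg_right ?_ ht0.le
      have h2 := v.add_le A (3 * ρ ^ 2)
      rw [v.map_mul, v.map_pow] at h2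
      have h3 : v 3 * v ρ ^ 2 ≤ 3 * s ^ 2 :=
        mul_le_mul u3 (pow_le_pow_left₀ hρ0 hρs 2) (by positivity) (by norm_num)
      linarith
    have b2 : v (B - 2 * ρ ^ 3 + η ^ 2) ≤ 4 * s ^ 3 := by
      have h2 := v.add_le (B - 2 * ρ ^ 3) (η ^ 2)
      have h3 := abs_sub_le' v B (2 * ρ ^ 3)
      rw [v.map_mul, v.map_pow] at h3
      rw [v.map_pow] at h2
      have h4 : v 2 * v ρ ^ 3 ≤ 2 * s ^ 3 :=
        mul_le_mul u2 (pow_le_pow_left₀ hρ0 hρs 3) (by positivity) (by norm_num)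
      have h5 : v η ^ 2 ≤ s ^ 2 := pow_le_pow_left₀ hη0 hηs 2
      linarith
    have b3 : v (2 * η * y) ≤ 2 * s * v y := by
      rw [v.map_mul, v.map_mul]
      refine mul_le_mul_of_nonneg_right ?_ (v.nonneg _)
      exact mul_le_mul u2 hηs hη0 (by norm_num)
    have b4 : v z * v (x - ρ) ^ 2 ≤ 4 * s ^ 2 * t + 4 * s ^ 3 + 2 * s * v y := by
      rw [← v.map_pow, ← v.map_mul, hid]
      have h2 := abs_sub_le' v ((A + 3 * ρ ^ 2) * x + (B - 2 * ρ ^ 3 + η ^ 2)) (2 * η * y)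
      have h3 := v.add_le ((A + 3 * ρ ^ 2) * x) (B - 2 * ρ ^ 3 + η ^ 2)
      linarith
    have b5 : v z * (t / 2) ^ 2 ≤ 4 * s ^ 2 * t + 4 * s ^ 3 + 2 * s * v y := by
      refine le_trans ?_ b4
      exact mul_le_mul_of_nonneg_left (pow_le_pow_left₀ (by positivity) h1 2) hz0
    have b8 := real_near hs1 ht1 hz0 hy2 b5
    refine b8.trans ?_
    exact le_mul_of_one_le_right (by positivity) (one_le_pow₀ hm1)

lemma poly_arch (v : AbsoluteValue K ℝ) (f : Polynomial K) {d : ℕ} (hd : f.natDegree ≤ d) :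
    ∃ c : ℝ, 1 ≤ c ∧ ∀ x : K, v (f.eval x) ≤ c * (max (v x) 1) ^ d := by
  refine ⟨∑ i ∈ Finset.range (d + 1), v (f.coeff i) + 1, ?_, fun x => ?_⟩
  · have : 0 ≤ ∑ i ∈ Finset.range (d + 1), v (f.coeff i) :=
      Finset.sum_nonneg fun i _ => v.nonneg _
    linarith
  have hm : 1 ≤ max (v x) 1 := le_max_right _ _
  rw [Polynomial.eval_eq_sum_range' (n := d + 1) (by omega)]
  calc v (∑ i ∈ Finset.range (d + 1), f.coeff i * x ^ i)
      ≤ ∑ i ∈ Finset.range (d + 1), v (f.coeff i * x ^ i) := v.sum_le _ _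
    _ ≤ ∑ i ∈ Finset.range (d + 1), v (f.coeff i) * (max (v x) 1) ^ d := by
        refine Finset.sum_le_sum fun i hi => ?_
        rw [Finset.mem_range] at hi
        rw [v.map_mul, v.map_pow]
        refine mul_le_mul_of_nonneg_left ?_ (v.nonneg _)
        calc v x ^ i ≤ (max (v x) 1) ^ i := pow_le_pow_left₀ (v.nonneg _) (le_max_left _ _) _
          _ ≤ _ := pow_le_pow_right₀ hm (by omega)
    _ = (∑ i ∈ Finset.range (d + 1), v (f.coeff i)) * (max (v x) 1) ^ d := by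
        rw [Finset.sum_mul]
    _ ≤ _ := by
        refine mul_le_mul_of_nonneg_right ?_ (by positivity)
        linarith

/-- the value of `(X - ρ) f` at `x(Q + R)` -/
lemma val_bad (v : AbsoluteValue K ℝ) (hQ : (sw A B).toAffine.Nonsingular ρ η)
    (f : Polynomial K) {d : ℕ} (hd : f.natDegree ≤ d) :
    ∃ D : ℝ, 1 ≤ D ∧ ∀ R : SPt A B, R ≠ 0 → Affine.Point.some ρ η hQ + R ≠ 0 → xc R ≠ ρ →
      v ((xc (Affine.Point.some ρ η hQ + R) - ρ) *
        f.eval (xc (Affine.Point.some ρ η hQ + R))) ^ 2 * xm v R ≤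
        D * xm v (Affine.Point.some ρ η hQ + R) ^ (2 * (d + 1)) := by
  obtain ⟨D, hD1, hD⟩ := near_bad (K := K) v hQ
  obtain ⟨c, hc1, hc⟩ := poly_arch v f hd
  refine ⟨D * c ^ 2, ?_, fun R hR hQR hne => ?_⟩
  · have : 1 ≤ c ^ 2 := one_le_pow₀ hc1
    nlinarith
  have h1 := hD R hR hQR hne
  obtain ⟨X, Y, H, hX⟩ := exists_some hQR
  rw [hX] at h1 ⊢
  rw [xm_some] at h1 ⊢
  have hxcX : xc (Affine.Point.some X Y H : SPt A B) = X := rfl
  rw [hxcX] at h1 ⊢
  have h2 := hc X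
  set m : ℝ := max (v X) 1 with hm
  have hm1 : 1 ≤ m := le_max_right _ _
  have hx1 := one_le_xm v R
  rw [v.map_mul]
  have h3 : v (f.eval X) ^ 2 ≤ (c * m ^ d) ^ 2 := pow_le_pow_left₀ (v.nonneg _) h2 2
  calc (v (X - ρ) * v (f.eval X)) ^ 2 * xm v R
      = (v (X - ρ) ^ 2 * xm v R) * v (f.eval X) ^ 2 := by ring
    _ ≤ (D * m ^ 2) * (c * m ^ d) ^ 2 := by
        refine mul_le_mul h1 h3 (by positivity) (by positivity)
    _ = D * c ^ 2 * m ^ (2 * (d + 1)) := by ring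

end arch

end Pool.Agent.NH29.HY
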