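import Mathlib
import Pool.Agent.NH29.HY.Near

set_option autoImplicit false
set_option linter.unusedSectionVars false

/-!
Global inequalities for the values of a polynomial at `x(Q + R)`.
-/

namespace Pool.Agent.NH29.HY

open NumberField WeierstrassCurve IsDedekindDomain Height Function Module
open Pool.Agent.TH942 Pool.Agent.TH954 Pool.Agent.NH29.VE

variable {K : Type} [Field K]

/-- the value `f₂(x(P))` with `f₂ = (X - ρ) f` -/
noncomputable def uu {A B : K} (ρ : K) (f : Polynomial K) (P : SPt A B) : K :=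
  (xc P - ρ) * f.eval (xc P)

variable [NumberField K]

/-- a good place -/
structure Good (A B ρ η : K) (f : Polynomial K) (v : FinitePlace K) : Prop where
  hA : v A ≤ 1
  hB : v B ≤ 1
  hρ : v ρ ≤ 1
  hη : v η ≤ 1
  h2 : v 2 = 1
  hf : ∀ i, v (f.coeff i) ≤ 1
  hl : v f.leadingCoeff = 1

lemma bad_set (A B ρ η : K) {f : Polynomial K} (hf : f ≠ 0) :
    ∃ B0 : Finset (FinitePlace K), ∀ v, v ∉ B0 → Good A B ρ η f v := by
  classical
  have h1 : ∀ x : K, x ≠ 0 → {v : FinitePlace K | v x ≠ 1}.Finite := fun x hx =>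
    FinitePlace.hasFiniteMulSupport hx
  have h2 : ∀ x : K, {v : FinitePlace K | ¬ v x ≤ 1}.Finite := by
    intro x
    by_cases hx : x = 0
    · have : {v : FinitePlace K | ¬ v x ≤ 1} = ∅ := by
        ext v
        simp [hx]
      rw [this]
      exact Set.finite_empty
    · refine (h1 x hx).subset ?_
      intro v hv h
      exact hv (le_of_eq h)
  have h2' : (2 : K) ≠ 0 := two_ne_zero
  have h3 : {v : FinitePlace K | ∃ i ∈ f.support, ¬ v (f.coeff i) ≤ 1}.Finite := by
    have : {v : FinitePlace K | ∃ i ∈ f.support, ¬ v (f.coeff i) ≤ 1} =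
        ⋃ i ∈ f.support, {v : FinitePlace K | ¬ v (f.coeff i) ≤ 1} := by
      ext v
      simp
    rw [this]
    exact Set.Finite.biUnion f.support.finite_toSet fun i _ => h2 _
  have h4 : f.leadingCoeff ≠ 0 := Polynomial.leadingCoeff_ne_zero.2 hf
  refine ⟨(((h2 A).toFinset ∪ (h2 B).toFinset) ∪ ((h2 ρ).toFinset ∪ (h2 η).toFinset)) ∪
    (((h1 2 h2').toFinset ∪ h3.toFinset) ∪ (h1 _ h4).toFinset), fun v hv => ?_⟩
  simp only [Finset.mem_union, Set.Finite.mem_toFinset, Set.mem_ofPred_eq, not_or, not_not,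
    not_exists, not_and] at hv
  obtain ⟨⟨⟨ha, hb⟩, hr, he⟩, ⟨ht, hs⟩, hl⟩ := hv
  refine ⟨ha, hb, hr, he, ht, fun i => ?_, hl⟩
  by_cases hi : i ∈ f.support
  · exact hs i hi
  · rw [Polynomial.notMem_support_iff.1 hi, map_zero]
    exact zero_le_one

variable [DecidableEq K] {A B ρ η : K} {f : Polynomial K} {v : FinitePlace K}

lemma nonarch (v : FinitePlace K) : ∀ x y, v.val (x + y) ≤ max (v.val x) (v.val y) :=
  FinitePlace.add_le v

lemma one_lt_norm (v : FinitePlace K) : (1 : ℝ) < Ideal.absNorm v.maximalIdeal.asIdeal := by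
  exact_mod_cast H951R2.MS.fp_one_lt v

lemma xm_xc (v : AbsoluteValue K ℝ) {P : SPt A B} (hP : P ≠ 0) : xm v P = max (v (xc P)) 1 := by
  obtain ⟨x, y, h, rfl⟩ := exists_some hP
  exact xm_some v h

lemma S1 (hg : Good A B ρ η f v) {d : ℕ} (hd : f.natDegree ≤ d) {P : SPt A B} (hP : P ≠ 0) :
    v.val (uu ρ f P) ≤ xm v.val P ^ (d + 1) := by
  have hna := nonarch v
  have hm : 1 ≤ max (v.val (xc P)) 1 := le_max_right _ _
  rw [xm_xc _ hP]
  unfold uu
  rw [v.val.map_mul, pow_succ, mul_comm]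
  refine mul_le_mul (poly_na hna f hd hg.hf _) ?_ (v.val.nonneg _) (by positivity)
  exact na_sub hna (le_max_left _ _) (hg.hρ.trans hm)

lemma ev_of_big (hg : Good A B ρ η f v) {P : SPt A B} (hP : P ≠ 0) (hx : 1 < v.val (xc P)) :
    Ev v.maximalIdeal (uu ρ f P) := by
  have hna := nonarch v
  have e := eqn_of_ne hP
  set x := xc P with hxd
  set y := yc P with hyd
  set t := v.val x with ht
  have ht0 : 0 < t := by linarith
  have ht3 : t < t ^ 3 := by
    have : 0 < t ^ 2 - 1 := by nlinarith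
    nlinarith [mul_pos ht0 this]
  have hy2 : v.val y ^ 2 = t ^ 3 := by
    rw [← v.val.map_pow, e, add_assoc, na_add_eq hna, v.val.map_pow]
    rw [v.val.map_pow]
    exact na_add_lt hna (lt_of_le_of_lt (na_mul hg.hA le_rfl) ht3)
      (lt_of_le_of_lt hg.hB (hx.trans ht3))
  have hx0 : x ≠ 0 := by
    intro h0
    rw [ht, h0, v.val.map_zero] at hx
    linarith
  have hy0 : y ≠ 0 := by
    intro h0
    rw [h0, v.val.map_zero] at hy2
    have : (0 : ℝ) < t ^ 3 := by positivity
    rw [← hy2] at this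
    norm_num at this
  have h1 : v.val (uu ρ f P) = t ^ (f.natDegree + 1) := by
    unfold uu
    rw [v.val.map_mul, pow_succ, mul_comm, poly_dom hna f hg.hf hg.hl hx]
    congr 1
    exact na_sub_eq hna (lt_of_le_of_lt hg.hρ hx)
  have h2 : t = v.val (y / x) ^ 2 := by
    rw [map_div₀, div_pow, hy2, ← ht]
    field_simp
  refine ev_of_eq_sq v (t := (y / x) ^ (f.natDegree + 1)) (pow_ne_zero _ (div_ne_zero hy0 hx0)) ?_
  have h3 : v (uu ρ f P) = v.val (uu ρ f P) := rfl
  have h4 : v ((y / x) ^ (f.natDegree + 1)) = v.val ((y / x) ^ (f.natDegree + 1)) := rfl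
  rw [h3, h4, h1, v.val.map_pow]
  conv_lhs => rw [h2]
  ring

lemma S2 (hg : Good A B ρ η f v) {d : ℕ} (hd : f.natDegree ≤ d) {P : SPt A B} (hP : P ≠ 0)
    (hev : ¬ Ev v.maximalIdeal (uu ρ f P)) :
    v.val (uu ρ f P) * Ideal.absNorm v.maximalIdeal.asIdeal ≤ xm v.val P ^ (d + 1) := by
  have hna := nonarch v
  have hx : v.val (xc P) ≤ 1 := by
    by_contra hc
    exact hev (ev_of_big hg hP (not_le.1 hc))
  have h1 := S1 hg hd hP
  have h2 : xm v.val P = 1 := by rw [xm_xc _ hP, max_eq_right hx]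
  rw [h2, one_pow] at h1 ⊢
  have h3 : v.val (uu ρ f P) < 1 := by
    refine lt_of_le_of_ne h1 fun h => hev ?_
    have : Ev (v.maximalIdeal) (uu ρ f P) := by
      apply ev_of_abs
      rw [FinitePlace.mk_maximalIdeal]
      exact h
    exact this
  have h4 := H951R2.MS.fp_le_inv v (x := uu ρ f P) h3
  have hN : (0 : ℝ) < Ideal.absNorm v.maximalIdeal.asIdeal := by
    have := one_lt_norm v
    linarith
  calc v.val (uu ρ f P) * Ideal.absNorm v.maximalIdeal.asIdeal
      ≤ (Ideal.absNorm v.maximalIdeal.asIdeal : ℝ)⁻¹ * Ideal.absNorm v.maximalIdeal.asIdeal :=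
        mul_le_mul_of_nonneg_right h4 hN.le
    _ = 1 := inv_mul_cancel₀ hN.ne'

lemma S3 (hg : Good A B ρ η f v) (hQ : (sw A B).toAffine.Nonsingular ρ η) {R : SPt A B}
    (hR : R ≠ 0) (hQR : Affine.Point.some ρ η hQ + R ≠ 0) (hx : 1 < v.val (xc R)) :
    v.val (uu ρ f (Affine.Point.some ρ η hQ + R)) ^ 2 * v.val (xc R) ≤ 1 := by
  have hna := nonarch v
  have h1 := near_good hna hg.hA hg.hB hg.hρ hg.hη hQ hR hQR hx
  set P : SPt A B := Affine.Point.some ρ η hQ + R with hP
  have hd := v.val.nonneg (xc P - ρ)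
  have h2 : v.val (xc P - ρ) ≤ 1 := by
    by_contra hc
    rw [not_le] at hc
    nlinarith
  have h3 : v.val (xc P) ≤ 1 := by
    have : xc P = (xc P - ρ) + ρ := by ring
    rw [this]
    exact na_add hna h2 hg.hρ
  have h4 : v.val (f.eval (xc P)) ≤ 1 := by
    have := poly_na hna f le_rfl hg.hf (xc P)
    rwa [max_eq_right h3, one_pow] at this
  unfold uu
  rw [v.val.map_mul, mul_pow]
  have h5 : v.val (f.eval (xc P)) ^ 2 ≤ 1 := pow_le_one₀ (v.val.nonneg _) h4
  calc v.val (xc P - ρ) ^ 2 * v.val (f.eval (xc P)) ^ 2 * v.val (xc R)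
      = v.val (xc P - ρ) ^ 2 * v.val (xc R) * v.val (f.eval (xc P)) ^ 2 := by ring
    _ ≤ 1 * 1 := mul_le_mul h1 h5 (by positivity) (by norm_num)
    _ = 1 := one_mul _

/-- the local inequality for two points at a good place -/
lemma locA (hg : Good A B ρ η f v) (hQ : (sw A B).toAffine.Nonsingular ρ η) {d : ℕ}
    (hd : f.natDegree ≤ d) (a b : ℕ) {T : SPt A B} (hT : T ≠ 0) (ha : a • T ≠ 0) (hb : b • T ≠ 0)
    (hQa : Affine.Point.some ρ η hQ + a • T ≠ 0) (hQb : Affine.Point.some ρ η hQ + b • T ≠ 0)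
    {g : ℝ} (hg0 : g = 1 ∨ (g = (Ideal.absNorm v.maximalIdeal.asIdeal : ℝ) ^ 2 ∧
      (¬ Ev v.maximalIdeal (uu ρ f (Affine.Point.some ρ η hQ + a • T)) ∨
        ¬ Ev v.maximalIdeal (uu ρ f (Affine.Point.some ρ η hQ + b • T))))) :
    v.val (uu ρ f (Affine.Point.some ρ η hQ + a • T)) ^ 2 *
      v.val (uu ρ f (Affine.Point.some ρ η hQ + b • T)) ^ 2 * xm v.val T * g ≤
      xm v.val (Affine.Point.some ρ η hQ + a • T) ^ (2 * (d + 1)) *
        xm v.val (Affine.Point.some ρ η hQ + b • T) ^ (2 * (d + 1)) := by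
  have hna := nonarch v
  have hN := one_lt_norm v
  set N : ℝ := (Ideal.absNorm v.maximalIdeal.asIdeal : ℝ) with hNd
  set P1 : SPt A B := Affine.Point.some ρ η hQ + a • T with hP1
  set P2 : SPt A B := Affine.Point.some ρ η hQ + b • T with hP2
  have o1 := one_le_xm v.val P1
  have o2 := one_le_xm v.val P2
  have u1 := v.val.nonneg (uu ρ f P1)
  have u2 := v.val.nonneg (uu ρ f P2)
  have hR1 : 1 ≤ xm v.val P1 ^ (2 * (d + 1)) := one_le_pow₀ o1
  have hR2 : 1 ≤ xm v.val P2 ^ (2 * (d + 1)) := one_le_pow₀ o2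
  have hg1 : 0 ≤ g := by
    rcases hg0 with h | h
    · rw [h]; exact zero_le_one
    · rw [h.1]; positivity
  rcases le_or_gt (v.val (xc T)) 1 with hx | hx
  · have e1 : xm v.val T = 1 := by rw [xm_xc _ hT, max_eq_right hx]
    rw [e1, mul_one]
    have s1 := S1 hg hd hQa
    have s2 := S1 hg hd hQb
    have s1' : v.val (uu ρ f P1) ^ 2 ≤ xm v.val P1 ^ (2 * (d + 1)) := by
      rw [mul_comm 2 (d + 1), pow_mul]
      exact pow_le_pow_left₀ u1 s1 2
    have s2' : v.val (uu ρ f P2) ^ 2 ≤ xm v.val P2 ^ (2 * (d + 1)) := by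
      rw [mul_comm 2 (d + 1), pow_mul]
      exact pow_le_pow_left₀ u2 s2 2
    rcases hg0 with h | ⟨h, h' | h'⟩
    · rw [h, mul_one]
      exact mul_le_mul s1' s2' (by positivity) (by positivity)
    · have s3 := S2 hg hd hQa h'
      have s3' : v.val (uu ρ f P1) ^ 2 * N ^ 2 ≤ xm v.val P1 ^ (2 * (d + 1)) := by
        rw [mul_comm 2 (d + 1), pow_mul, ← mul_pow]
        exact pow_le_pow_left₀ (by positivity) s3 2
      rw [h]
      calc v.val (uu ρ f P1) ^ 2 * v.val (uu ρ f P2) ^ 2 * N ^ 2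
          = (v.val (uu ρ f P1) ^ 2 * N ^ 2) * v.val (uu ρ f P2) ^ 2 := by ring
        _ ≤ _ := mul_le_mul s3' s2' (by positivity) (by positivity)
    · have s3 := S2 hg hd hQb h'
      have s3' : v.val (uu ρ f P2) ^ 2 * N ^ 2 ≤ xm v.val P2 ^ (2 * (d + 1)) := by
        rw [mul_comm 2 (d + 1), pow_mul, ← mul_pow]
        exact pow_le_pow_left₀ (by positivity) s3 2
      rw [h]
      calc v.val (uu ρ f P1) ^ 2 * v.val (uu ρ f P2) ^ 2 * N ^ 2
          = v.val (uu ρ f P1) ^ 2 * (v.val (uu ρ f P2) ^ 2 * N ^ 2) := by ring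
        _ ≤ _ := mul_le_mul s1' s3' (by positivity) (by positivity)
  · have hBig : BigV v.val (v.val (xc T)) T := by
      obtain ⟨x, y, h, rfl⟩ := exists_some hT
      exact bigV_some.2 le_rfl
    have hxT : xm v.val T = v.val (xc T) := by rw [xm_xc _ hT, max_eq_left hx.le]
    have key : ∀ c : ℕ, c • T ≠ 0 → v.val (xc T) ≤ v.val (xc (c • T)) := by
      intro c hc
      have h1 := bigV_nsmul_na hna hg.hA hg.hB hx hBig c
      obtain ⟨X, Y, H, hX⟩ := exists_some hc
      rw [hX, bigV_some] at h1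
      rw [hX]
      exact h1
    have ka := key a ha
    have kb := key b hb
    have s1 := S3 hg hQ ha hQa (hx.trans_le ka)
    have s2 := S3 hg hQ hb hQb (hx.trans_le kb)
    have hgap : g ≤ xm v.val T := by
      rcases hg0 with h | ⟨h, -⟩
      · rw [h]; exact one_le_xm _ _
      · rw [h]
        exact gap v hg.hA hg.hB (by rw [hxT]; exact hx)
    rw [hxT] at hgap ⊢
    have t1 : v.val (uu ρ f P1) ^ 2 * v.val (xc T) ≤ 1 :=
      (mul_le_mul_of_nonneg_left ka (by positivity)).trans s1
    have t2 : v.val (uu ρ f P2) ^ 2 * g ≤ 1 :=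
      (mul_le_mul_of_nonneg_left (hgap.trans kb) (by positivity)).trans s2
    calc v.val (uu ρ f P1) ^ 2 * v.val (uu ρ f P2) ^ 2 * v.val (xc T) * g
        = (v.val (uu ρ f P1) ^ 2 * v.val (xc T)) * (v.val (uu ρ f P2) ^ 2 * g) := by ring
      _ ≤ 1 * 1 := mul_le_mul t1 t2 (by positivity) (by norm_num)
      _ ≤ _ := mul_le_mul hR1 hR2 (by norm_num) (by positivity)

/-- the local inequality for two points at any place -/
lemma locA_bad (w : AbsoluteValue K ℝ) (hQ : (sw A B).toAffine.Nonsingular ρ η) {d : ℕ}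
    (hd : f.natDegree ≤ d) (a b : ℕ) :
    ∃ D : ℝ, 1 ≤ D ∧ ∀ T : SPt A B, T ≠ 0 → a • T ≠ 0 → b • T ≠ 0 →
      Affine.Point.some ρ η hQ + a • T ≠ 0 → Affine.Point.some ρ η hQ + b • T ≠ 0 →
      xc (a • T) ≠ ρ → xc (b • T) ≠ ρ →
      w (uu ρ f (Affine.Point.some ρ η hQ + a • T)) ^ 2 *
      w (uu ρ f (Affine.Point.some ρ η hQ + b • T)) ^ 2 * xm w T ≤
      D * (xm w (Affine.Point.some ρ η hQ + a • T) ^ (2 * (d + 1)) *
        xm w (Affine.Point.some ρ η hQ + b • T) ^ (2 * (d + 1))) := by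
  obtain ⟨D, hD1, hD⟩ := val_bad w hQ f hd
  have hRc := one_le_Rc A B a w
  refine ⟨D * D * Rc A B a w, ?_, ?_⟩
  · have : 1 ≤ D * D := by nlinarith
    nlinarith
  intro T hT ha hb hQa hQb hxa hxb
  have h1 := hD (a • T) ha hQa hxa
  have h2 := hD (b • T) hb hQb hxb
  have h3 := xm_le w a hT ha
  have h4 := one_le_xm w (b • T)
  set P1 : SPt A B := Affine.Point.some ρ η hQ + a • T with hP1
  set P2 : SPt A B := Affine.Point.some ρ η hQ + b • T with hP2
  have e1 : (xc P1 - ρ) * f.eval (xc P1) = uu ρ f P1 := rfl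
  have e2 : (xc P2 - ρ) * f.eval (xc P2) = uu ρ f P2 := rfl
  rw [e1] at h1
  rw [e2] at h2
  have o1 := one_le_xm w P1
  have o2 := one_le_xm w P2
  have u1 := w.nonneg (uu ρ f P1)
  have u2 := w.nonneg (uu ρ f P2)
  have t1 : w (uu ρ f P1) ^ 2 * xm w T ≤ Rc A B a w * (D * xm w P1 ^ (2 * (d + 1))) := by
    calc w (uu ρ f P1) ^ 2 * xm w T ≤ w (uu ρ f P1) ^ 2 * (Rc A B a w * xm w (a • T)) :=
          mul_le_mul_of_nonneg_left h3 (by positivity)
      _ = Rc A B a w * (w (uu ρ f P1) ^ 2 * xm w (a • T)) := by ring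
      _ ≤ _ := mul_le_mul_of_nonneg_left h1 (by linarith)
  have t2 : w (uu ρ f P2) ^ 2 ≤ D * xm w P2 ^ (2 * (d + 1)) :=
    (le_mul_of_one_le_right (by positivity) h4).trans h2
  calc w (uu ρ f P1) ^ 2 * w (uu ρ f P2) ^ 2 * xm w T
      = (w (uu ρ f P1) ^ 2 * xm w T) * w (uu ρ f P2) ^ 2 := by ring
    _ ≤ (Rc A B a w * (D * xm w P1 ^ (2 * (d + 1)))) * (D * xm w P2 ^ (2 * (d + 1))) :=
        mul_le_mul t1 t2 (by positivity) (by positivity)
    _ = _ := by ring

/-- **two points** -/
theorem globA (hQ : (sw A B).toAffine.Nonsingular ρ η) {d : ℕ}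
    (hd : f.natDegree ≤ d) (a b : ℕ) (B0 : Finset (FinitePlace K))
    (hB0 : ∀ v, v ∉ B0 → Good A B ρ η f v) :
    ∃ C : ℝ, ∀ T : SPt A B, T ≠ 0 → a • T ≠ 0 → b • T ≠ 0 →
      Affine.Point.some ρ η hQ + a • T ≠ 0 → Affine.Point.some ρ η hQ + b • T ≠ 0 →
      xc (a • T) ≠ ρ → xc (b • T) ≠ ρ →
      uu ρ f (Affine.Point.some ρ η hQ + a • T) ≠ 0 →
      uu ρ f (Affine.Point.some ρ η hQ + b • T) ≠ 0 →
      ∀ V : Finset (FinitePlace K), (∀ v ∈ V, v ∉ B0 ∧
        (¬ Ev v.maximalIdeal (uu ρ f (Affine.Point.some ρ η hQ + a • T)) ∨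
        ¬ Ev v.maximalIdeal (uu ρ f (Affine.Point.some ρ η hQ + b • T)))) →
      2 * ∑ v ∈ V, Real.log (Ideal.absNorm v.maximalIdeal.asIdeal : ℝ) + sht T ≤
        2 * (d + 1) * (sht (Affine.Point.some ρ η hQ + a • T) +
          sht (Affine.Point.some ρ η hQ + b • T)) + C := by
  classical
  choose D hD1 hD using fun w : AbsoluteValue K ℝ => locA_bad (f := f) w hQ hd a b
  set cf : FinitePlace K → ℝ := fun v => if v ∈ B0 then Real.log (D v.val) else 0 with hcf
  set ci : InfinitePlace K → ℝ := fun w => Real.log (D w.val) with hci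
  refine ⟨sm cf ci, ?_⟩
  intro T hT ha hb hQa hQb hxa hxb hu1 hu2 V hV
  set P1 : SPt A B := Affine.Point.some ρ η hQ + a • T with hP1
  set P2 : SPt A B := Affine.Point.some ρ η hQ + b • T with hP2
  set gf : FinitePlace K → ℝ := fun v =>
    if v ∈ V then 2 * Real.log (Ideal.absNorm v.maximalIdeal.asIdeal : ℝ) else 0 with hgf
  have hpos : ∀ (v : AbsoluteValue K ℝ) (P : SPt A B), 0 < xm v P := fun v P =>
    zero_lt_one.trans_le (one_le_xm v P)
  have sgf : gf.HasFiniteSupport := fs_of_subset V fun v hv => by simp [hgf, hv]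
  have scf : cf.HasFiniteSupport := fs_of_subset B0 fun v hv => by simp [hcf, hv]
  have s1 : (fun v : FinitePlace K => (2 : ℝ) * Real.log (v.val (uu ρ f P1))).HasFiniteSupport :=
    fs_mul 2 (abs_supp hu1)
  have s2 : (fun v : FinitePlace K => (2 : ℝ) * Real.log (v.val (uu ρ f P2))).HasFiniteSupport :=
    fs_mul 2 (abs_supp hu2)
  have sP : ∀ P : SPt A B, (fun v : FinitePlace K =>
      (2 * ((d : ℝ) + 1)) * Real.log (xm v.val P)).HasFiniteSupport := fun P =>
    fs_mul _ (xm_supp P)
  have s12 := fs_add s1 s2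
  have s12T := fs_add s12 (xm_supp T)
  have key := sm_le
    (a := fun v : FinitePlace K => ((2 * Real.log (v.val (uu ρ f P1)) +
      2 * Real.log (v.val (uu ρ f P2))) + Real.log (xm v.val T)) + gf v)
    (a' := fun v : FinitePlace K => cf v + ((2 * ((d : ℝ) + 1)) * Real.log (xm v.val P1) +
      (2 * ((d : ℝ) + 1)) * Real.log (xm v.val P2)))
    (b := fun w : InfinitePlace K => ((2 * Real.log (w.val (uu ρ f P1)) +
      2 * Real.log (w.val (uu ρ f P2))) + Real.log (xm w.val T)) + 0)
    (b' := fun w : InfinitePlace K => ci w + ((2 * ((d : ℝ) + 1)) * Real.log (xm w.val P1) +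
      (2 * ((d : ℝ) + 1)) * Real.log (xm w.val P2)))
    (fs_add s12T sgf) (fs_add scf (fs_add (sP P1) (sP P2))) (by
      intro v
      have hv1 : 0 < v.val (uu ρ f P1) := v.val.pos hu1
      have hv2 : 0 < v.val (uu ρ f P2) := v.val.pos hu2
      have hN := one_lt_norm v
      by_cases hvB : v ∈ B0
      · have hvV : v ∉ V := fun h => (hV v h).1 hvB
        have h1 := hD v.val T hT ha hb hQa hQb hxa hxb
        have h2 := Real.log_le_log (by
          have := hpos v.val T
          positivity) h1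
        have hDp : 0 < D v.val := zero_lt_one.trans_le (hD1 _)
        rw [Real.log_mul (by positivity) (hpos _ _).ne', Real.log_mul (by positivity)
          (by positivity), Real.log_pow, Real.log_pow, Real.log_mul hDp.ne' (by
            have := hpos v.val P1
            have := hpos v.val P2
            positivity), Real.log_mul (by
            have := hpos v.val P1
            positivity) (by
            have := hpos v.val P2
            positivity), Real.log_pow, Real.log_pow] at h2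
        simp only [hgf, hcf, hvB, hvV, if_true, if_false]
        push_cast at h2
        linarith
      · have h1 := locA (hB0 v hvB) hQ hd a b hT ha hb hQa hQb
          (g := if v ∈ V then (Ideal.absNorm v.maximalIdeal.asIdeal : ℝ) ^ 2 else 1) (by
            by_cases hvV : v ∈ V
            · right
              exact ⟨by rw [if_pos hvV], (hV v hvV).2⟩
            · left
              rw [if_neg hvV])
        have hgpos : (0 : ℝ) < if v ∈ V then (Ideal.absNorm v.maximalIdeal.asIdeal : ℝ) ^ 2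
            else 1 := by
          split_ifs
          · positivity
          · exact one_pos
        have hlg : Real.log (if v ∈ V then (Ideal.absNorm v.maximalIdeal.asIdeal : ℝ) ^ 2
            else 1) = gf v := by
          simp only [hgf]
          split_ifs
          · rw [Real.log_pow]; push_cast; ring
          · exact Real.log_one
        have h2 := Real.log_le_log (by
          have := hpos v.val T
          positivity) h1
        rw [Real.log_mul (by
            have := hpos v.val T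
            positivity) hgpos.ne', Real.log_mul (by positivity) (hpos _ _).ne',
          Real.log_mul (by positivity)
          (by positivity), Real.log_pow, Real.log_pow, Real.log_mul (by
            have := hpos v.val P1
            positivity) (by
            have := hpos v.val P2
            positivity), Real.log_pow, Real.log_pow, hlg] at h2
        simp only [hcf, hvB, if_false]
        push_cast at h2
        linarith) (by
      intro w
      have hv1 : 0 < w.val (uu ρ f P1) := w.val.pos hu1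
      have hv2 : 0 < w.val (uu ρ f P2) := w.val.pos hu2
      have h1 := hD w.val T hT ha hb hQa hQb hxa hxb
      have h2 := Real.log_le_log (by
        have := hpos w.val T
        positivity) h1
      have hDp : 0 < D w.val := zero_lt_one.trans_le (hD1 _)
      rw [Real.log_mul (by positivity) (hpos _ _).ne', Real.log_mul (by positivity)
        (by positivity), Real.log_pow, Real.log_pow, Real.log_mul hDp.ne' (by
          have := hpos w.val P1
          have := hpos w.val P2
          positivity), Real.log_mul (by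
          have := hpos w.val P1
          positivity) (by
          have := hpos w.val P2
          positivity), Real.log_pow, Real.log_pow] at h2
      simp only [hci]
      push_cast at h2
      linarith)
  rw [sm_add (b' := fun _ => (0 : ℝ)) s12T sgf, sm_add s12 (xm_supp T), sm_add s1 s2, sm_mul,
    sm_mul, sm_add scf (fs_add (sP P1) (sP P2)), sm_add (sP P1) (sP P2), sm_mul,
    sm_mul, sm_abs hu1, sm_abs hu2, sm_xm, sm_xm, sm_xm,
    sm_fin (a := gf) V (fun v hv => by simp [hgf, hv])] at key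
  have e1 : ∑ v ∈ V, gf v = 2 * ∑ v ∈ V, Real.log (Ideal.absNorm v.maximalIdeal.asIdeal : ℝ) := by
    rw [Finset.mul_sum]
    refine Finset.sum_congr rfl fun v hv => ?_
    simp only [hgf, hv, if_true]
  rw [e1] at key
  simp only [mul_zero, Finset.sum_const_zero, add_zero, zero_add] at key
  linarith

end Pool.Agent.NH29.HY
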