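import Mathlib
import Pool.Agent.NH29.HY.Glb

set_option autoImplicit false
set_option linter.unusedSectionVars false

/-!
The discriminant of a field generated by square roots.
-/

namespace Pool.Agent.NH29.HY

open NumberField WeierstrassCurve IsDedekindDomain Height Function Module
open Pool.Agent.TH942 Pool.Agent.TH954 Pool.Agent.NH29.VE

theorem disc_gen (K : Type) [Field K] [NumberField K] (n : ℕ) :
    ∃ C : ℝ, ∀ u : Fin n → K, (∀ l, u l ≠ 0) → ∀ V : Finset (FinitePlace K),
      (∀ v : FinitePlace K, v ∉ V → ∀ l, Ev v.maximalIdeal (u l)) →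
      ∃ (F : Type) (_ : Field F) (_ : NumberField F) (_ : Algebra K F) (w : Fin n → F),
        (∀ l, w l ^ 2 = algebraMap K F (u l)) ∧ finrank K F ≤ 2 ^ n ∧
        Y733.VR.ld F ≤ (1 / 2 * ∑ v ∈ V, Real.log (Ideal.absNorm v.maximalIdeal.asIdeal : ℝ)) /
          finrank ℚ K + C := by
  classical
  have h2 : {v : FinitePlace K | v (2 : K) ≠ 1}.Finite :=
    FinitePlace.hasFiniteMulSupport two_ne_zero
  set P2 : Finset (HeightOneSpectrum (𝓞 K)) := h2.toFinset.image FinitePlace.maximalIdeal with hP2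
  refine ⟨Y733.VR.ld K + n * ((1 / 2 * ∑ v ∈ P2, Real.log (Ideal.absNorm v.asIdeal : ℝ)) /
    finrank ℚ K + Real.log 2), ?_⟩
  intro u hu V hV
  obtain ⟨F, iF, iN, iA, w, hw, htop⟩ := exists_field K u
  obtain ⟨hfin, V', hV', hld⟩ := ld_multi K P2 (by
    intro v hv
    rw [hP2, Finset.mem_image]
    refine ⟨FinitePlace.mk v, ?_, FinitePlace.maximalIdeal_mk v⟩
    rw [Set.Finite.mem_toFinset]
    exact two_mem hv) (V.image FinitePlace.maximalIdeal) n F u w hu hw htop (by
    intro v hv l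
    have h := hV (FinitePlace.mk v) (fun h => hv (by
      rw [Finset.mem_image]
      exact ⟨_, h, FinitePlace.maximalIdeal_mk v⟩)) l
    rwa [FinitePlace.maximalIdeal_mk] at h)
  refine ⟨F, iF, iN, iA, w, hw, hfin, ?_⟩
  have hsub : V' ⊆ V.image FinitePlace.maximalIdeal := by
    intro v hv
    obtain ⟨l, hl⟩ := (hV' v).1 hv
    by_contra hc
    apply hl
    have h := hV (FinitePlace.mk v) (fun h => hc (by
      rw [Finset.mem_image]
      exact ⟨_, h, FinitePlace.maximalIdeal_mk v⟩)) l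
    rwa [FinitePlace.maximalIdeal_mk] at h
  have s1 : ∑ v ∈ V', Real.log (Ideal.absNorm v.asIdeal : ℝ) ≤
      ∑ v ∈ V, Real.log (Ideal.absNorm v.maximalIdeal.asIdeal : ℝ) := by
    calc _ ≤ ∑ v ∈ V.image FinitePlace.maximalIdeal, Real.log (Ideal.absNorm v.asIdeal : ℝ) :=
          Finset.sum_le_sum_of_subset_of_nonneg hsub fun v _ _ => Real.log_natCast_nonneg _
      _ = _ := by
          rw [Finset.sum_image]
          intro u _ w _ h
          exact (FinitePlace.maximalIdeal_inj _ _).1 h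
  have hK : (0 : ℝ) < finrank ℚ K := by exact_mod_cast finrank_pos
  have s2 : (1 / 2 * ∑ v ∈ V', Real.log (Ideal.absNorm v.asIdeal : ℝ)) / (finrank ℚ K : ℝ) ≤
      (1 / 2 * ∑ v ∈ V, Real.log (Ideal.absNorm v.maximalIdeal.asIdeal : ℝ)) / finrank ℚ K := by
    gcongr
  linarith

end Pool.Agent.NH29.HY
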