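import Mathlib
import Pool.Agent.NH29.HY.Glb

set_option autoImplicit false
set_option linter.unusedSectionVars false

/-!
The global inequality for one point, and doubling at a place above `2`.
-/

namespace Pool.Agent.NH29.HY

open NumberField WeierstrassCurve IsDedekindDomain Height Function Module
open Pool.Agent.TH942 Pool.Agent.TH954 Pool.Agent.NH29.VE

section glob

variable {K : Type} [Field K] [NumberField K] [DecidableEq K] {A B ρ η : K} {f : Polynomial K}

/-- **one point** -/
theorem globB (hQ : (sw A B).toAffine.Nonsingular ρ η) {d : ℕ}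
    (hd : f.natDegree ≤ d) (B0 : Finset (FinitePlace K))
    (hB0 : ∀ v, v ∉ B0 → Good A B ρ η f v) :
    ∃ C : ℝ, ∀ R : SPt A B, R ≠ 0 → Affine.Point.some ρ η hQ + R ≠ 0 → xc R ≠ ρ →
      uu ρ f (Affine.Point.some ρ η hQ + R) ≠ 0 →
      ∀ V : Finset (FinitePlace K), (∀ v ∈ V, v ∉ B0 ∧
        ¬ Ev v.maximalIdeal (uu ρ f (Affine.Point.some ρ η hQ + R))) →
      2 * ∑ v ∈ V, Real.log (Ideal.absNorm v.maximalIdeal.asIdeal : ℝ) +
        ∑ v ∈ B0, Real.log (xm v.val R) ≤
        2 * (d + 1) * sht (Affine.Point.some ρ η hQ + R) + C := by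
  classical
  choose D hD1 hD using fun w : AbsoluteValue K ℝ => val_bad w hQ f hd
  set cf : FinitePlace K → ℝ := fun v => if v ∈ B0 then Real.log (D v.val) else 0 with hcf
  set ci : InfinitePlace K → ℝ := fun w => Real.log (D w.val) with hci
  refine ⟨sm cf ci, ?_⟩
  intro R hR hQR hx hu V hV
  set P : SPt A B := Affine.Point.some ρ η hQ + R with hP
  set gf : FinitePlace K → ℝ := fun v =>
    if v ∈ V then 2 * Real.log (Ideal.absNorm v.maximalIdeal.asIdeal : ℝ) else 0 with hgf
  set rf : FinitePlace K → ℝ := fun v =>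
    if v ∈ B0 then Real.log (xm v.val R) else 0 with hrf
  have hpos : ∀ (v : AbsoluteValue K ℝ) (P : SPt A B), 0 < xm v P := fun v P =>
    zero_lt_one.trans_le (one_le_xm v P)
  have sgf : gf.HasFiniteSupport := fs_of_subset V fun v hv => by simp [hgf, hv]
  have scf : cf.HasFiniteSupport := fs_of_subset B0 fun v hv => by simp [hcf, hv]
  have srf : rf.HasFiniteSupport := fs_of_subset B0 fun v hv => by simp [hrf, hv]
  have s1 : (fun v : FinitePlace K => (2 : ℝ) * Real.log (v.val (uu ρ f P))).HasFiniteSupport :=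
    fs_mul 2 (abs_supp hu)
  have sP : (fun v : FinitePlace K =>
      (2 * ((d : ℝ) + 1)) * Real.log (xm v.val P)).HasFiniteSupport := fs_mul _ (xm_supp P)
  have s12 := fs_add s1 srf
  have e0 : ∀ w : AbsoluteValue K ℝ, w ((xc P - ρ) * f.eval (xc P)) = w (uu ρ f P) :=
    fun w => rfl
  have key := sm_le
    (a := fun v : FinitePlace K => (2 * Real.log (v.val (uu ρ f P)) + rf v) + gf v)
    (a' := fun v : FinitePlace K => cf v + (2 * ((d : ℝ) + 1)) * Real.log (xm v.val P))
    (b := fun w : InfinitePlace K => (2 * Real.log (w.val (uu ρ f P)) + 0) + 0)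
    (b' := fun w : InfinitePlace K => ci w + (2 * ((d : ℝ) + 1)) * Real.log (xm w.val P))
    (fs_add s12 sgf) (fs_add scf sP) (by
      intro v
      have hv1 : 0 < v.val (uu ρ f P) := v.val.pos hu
      have hN := one_lt_norm v
      by_cases hvB : v ∈ B0
      · have hvV : v ∉ V := fun h => (hV v h).1 hvB
        have h1 := hD v.val R hR hQR hx
        rw [e0] at h1
        have h2 := Real.log_le_log (by
          have := hpos v.val R
          positivity) h1
        have hDp : 0 < D v.val := zero_lt_one.trans_le (hD1 _)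
        rw [Real.log_mul (by positivity) (hpos _ _).ne', Real.log_pow,
          Real.log_mul hDp.ne' (by
            have := hpos v.val P
            positivity), Real.log_pow] at h2
        simp only [hgf, hcf, hrf, hvB, hvV, if_true, if_false]
        push_cast at h2
        linarith
      · have h1 : v.val (uu ρ f P) *
            (if v ∈ V then (Ideal.absNorm v.maximalIdeal.asIdeal : ℝ) else 1) ≤
            xm v.val P ^ (d + 1) := by
          split_ifs with h
          · exact S2 (hB0 v hvB) hd hQR (hV v h).2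
          · rw [mul_one]
            exact S1 (hB0 v hvB) hd hQR
        have hgpos : (0 : ℝ) < if v ∈ V then (Ideal.absNorm v.maximalIdeal.asIdeal : ℝ)
            else 1 := by
          split_ifs
          · linarith
          · exact one_pos
        have hlg : 2 * Real.log (if v ∈ V then (Ideal.absNorm v.maximalIdeal.asIdeal : ℝ)
            else 1) = gf v := by
          simp only [hgf]
          split_ifs
          · rfl
          · rw [Real.log_one, mul_zero]
        have h2 := Real.log_le_log (by positivity) h1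
        rw [Real.log_mul hv1.ne' hgpos.ne', Real.log_pow] at h2
        simp only [hcf, hrf, hvB, if_false]
        push_cast at h2
        linarith) (by
      intro w
      have hv1 : 0 < w.val (uu ρ f P) := w.val.pos hu
      have h1 := hD w.val R hR hQR hx
      rw [e0] at h1
      have h1' : w.val (uu ρ f P) ^ 2 ≤ D w.val * xm w.val P ^ (2 * (d + 1)) :=
        (le_mul_of_one_le_right (by positivity) (one_le_xm w.val R)).trans h1
      have h2 := Real.log_le_log (by positivity) h1'
      have hDp : 0 < D w.val := zero_lt_one.trans_le (hD1 _)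
      rw [Real.log_pow, Real.log_mul hDp.ne' (by
          have := hpos w.val P
          positivity), Real.log_pow] at h2
      simp only [hci]
      push_cast at h2
      linarith)
  rw [sm_add (b' := fun _ => (0 : ℝ)) s12 sgf, sm_add (b' := fun _ => (0 : ℝ)) s1 srf, sm_mul,
    sm_add scf sP, sm_mul, sm_abs hu, sm_xm,
    sm_fin (a := gf) V (fun v hv => by simp [hgf, hv]),
    sm_fin (a := rf) B0 (fun v hv => by simp [hrf, hv])] at key
  have e1 : ∑ v ∈ V, gf v = 2 * ∑ v ∈ V, Real.log (Ideal.absNorm v.maximalIdeal.asIdeal : ℝ) := by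
    rw [Finset.mul_sum]
    refine Finset.sum_congr rfl fun v hv => ?_
    simp only [hgf, hv, if_true]
  have e2 : ∑ v ∈ B0, rf v = ∑ v ∈ B0, Real.log (xm v.val R) := by
    refine Finset.sum_congr rfl fun v hv => ?_
    simp only [hrf, hv, if_true]
  rw [e1, e2] at key
  simp only [mul_zero, Finset.sum_const_zero, add_zero, zero_add] at key
  linarith

end glob

section dbl

variable {K : Type} [Field K] [CharZero K] [DecidableEq K] {A B : K}
  {v : AbsoluteValue K ℝ} (hna : ∀ x y, v (x + y) ≤ max (v x) (v y))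

lemma two_nsmul_ne {P : SPt A B} (hP : P ≠ 0) (hy : yc P ≠ 0) : (2 : ℕ) • P ≠ 0 := by
  obtain ⟨x, y, h, rfl⟩ := exists_some hP
  intro h0
  rw [two_nsmul, add_eq_zero_iff_eq_neg, sw_short.neg_some, Affine.Point.some.injEq] at h0
  have h1 : y = -y := h0.2
  apply hy
  show y = 0
  have h2 : (2 : K) * y = 0 := by linear_combination h1
  exact (mul_eq_zero.1 h2).resolve_left two_ne_zero

include hna

lemma dbl_step {P : SPt A B} (hP : P ≠ 0) (h1 : 1 < v (xc P)) (hA : v A < v (xc P) ^ 2)
    (hB : v B < v (xc P) ^ 3) :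
    (2 : ℕ) • P ≠ 0 ∧ v (xc ((2 : ℕ) • P)) * v 4 = v (xc P) := by
  have e := eqn_of_ne hP
  set x := xc P with hx
  set y := yc P with hy
  set t := v x with ht
  have ht0 : 0 < t := by linarith
  have hy2 : v y ^ 2 = t ^ 3 := by
    rw [← v.map_pow, e, add_assoc, na_add_eq hna, v.map_pow]
    rw [v.map_pow]
    refine na_add_lt hna ?_ hB
    rw [v.map_mul]
    calc v A * t < t ^ 2 * t := mul_lt_mul_of_pos_right hA ht0
      _ = t ^ 3 := by ring
  have hy0 : y ≠ 0 := by
    intro h0
    rw [h0, v.map_zero] at hy2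
    have : (0 : ℝ) < t ^ 3 := by positivity
    rw [← hy2] at this
    norm_num at this
  have h2P := two_nsmul_ne hP hy0
  refine ⟨h2P, ?_⟩
  obtain ⟨x', y', h, hPe⟩ := exists_some hP
  obtain ⟨X, Y, H, hX⟩ := exists_some h2P
  have hx' : x = x' := by rw [hx, hPe]; rfl
  have hy' : y = y' := by rw [hy, hPe]; rfl
  rw [hX]
  show v X * v 4 = t
  rw [hPe] at hX
  obtain ⟨-, hd⟩ := dup hX
  rw [← hx', ← hy'] at hd
  have u : ∀ n : ℕ, v (n : K) ≤ 1 := na_nat hna
  have u2 : v (2 : K) ≤ 1 := by exact_mod_cast u 2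
  have u8 : v (8 : K) ≤ 1 := by exact_mod_cast u 8
  have h3 : v (x ^ 4 - 2 * A * x ^ 2 - 8 * B * x + A ^ 2) = t ^ 4 := by
    have e4 : x ^ 4 - 2 * A * x ^ 2 - 8 * B * x + A ^ 2 =
        x ^ 4 + (A ^ 2 - (2 * (A * x ^ 2) + 8 * (B * x))) := by ring
    rw [e4, na_add_eq hna, v.map_pow]
    rw [v.map_pow]
    have b1 : v (A ^ 2) < t ^ 4 := by
      rw [v.map_pow]
      calc v A ^ 2 < (t ^ 2) ^ 2 := pow_lt_pow_left₀ hA (v.nonneg _) two_ne_zero
        _ = t ^ 4 := by ring
    have b2 : v (2 * (A * x ^ 2)) < t ^ 4 := by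
      refine lt_of_le_of_lt (na_mul u2 le_rfl) ?_
      rw [v.map_mul, v.map_pow]
      calc v A * t ^ 2 < t ^ 2 * t ^ 2 := mul_lt_mul_of_pos_right hA (by positivity)
        _ = t ^ 4 := by ring
    have b3 : v (8 * (B * x)) < t ^ 4 := by
      refine lt_of_le_of_lt (na_mul u8 le_rfl) ?_
      rw [v.map_mul]
      calc v B * t < t ^ 3 * t := mul_lt_mul_of_pos_right hB ht0
        _ = t ^ 4 := by ring
    exact na_sub_lt hna b1 (na_add_lt hna b2 b3)
  have h4 := congrArg v hd
  rw [h3, v.map_mul, v.map_mul, v.map_pow, hy2] at h4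
  have h5 : v X * v 4 * t ^ 3 = t * t ^ 3 := by
    calc v X * v 4 * t ^ 3 = v X * (v 4 * t ^ 3) := by ring
      _ = t ^ 4 := h4
      _ = t * t ^ 3 := by ring
  exact mul_right_cancel₀ (by positivity) h5

lemma dbl {P : SPt A B} (hP : P ≠ 0) (h1 : 1 < v (xc P)) (hA : v A < v (xc P) ^ 2)
    (hB : v B < v (xc P) ^ 3) (j : ℕ) :
    2 ^ j • P ≠ 0 ∧ v (xc (2 ^ j • P)) * v 4 ^ j = v (xc P) := by
  have h4 : v 4 ≤ 1 := by exact_mod_cast na_nat hna 4
  have h40 : 0 < v 4 := v.pos (by norm_num)
  induction j with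
  | zero => simpa using hP
  | succ j ih =>
    obtain ⟨ih1, ih2⟩ := ih
    have hle : v (xc P) ≤ v (xc (2 ^ j • P)) := by
      have h5 : v 4 ^ j ≤ 1 := pow_le_one₀ h40.le h4
      calc v (xc P) = v (xc (2 ^ j • P)) * v 4 ^ j := ih2.symm
        _ ≤ v (xc (2 ^ j • P)) * 1 := mul_le_mul_of_nonneg_left h5 (v.nonneg _)
        _ = _ := mul_one _
    have h0 := v.nonneg (xc P)
    obtain ⟨s1, s2⟩ := dbl_step hna ih1 (h1.trans_le hle)
      (hA.trans_le (pow_le_pow_left₀ h0 hle 2)) (hB.trans_le (pow_le_pow_left₀ h0 hle 3))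
    have e : 2 ^ (j + 1) • P = (2 : ℕ) • 2 ^ j • P := by
      rw [← mul_smul, pow_succ, mul_comm]
    rw [e]
    refine ⟨s1, ?_⟩
    rw [pow_succ, mul_comm (v 4 ^ j), ← mul_assoc, s2, ih2]

/-- a point of infinite order -/
lemma dbl_inf (h41 : v 4 < 1) {P : SPt A B} (hP : P ≠ 0) (h1 : 1 < v (xc P))
    (hA : v A < v (xc P) ^ 2) (hB : v B < v (xc P) ^ 3) : ¬ IsOfFinAddOrder P := by
  intro hfin
  have h40 : 0 < v 4 := v.pos (by norm_num)
  have hx0 : 0 < v (xc P) := by linarith
  have hfs : (Set.range fun j : ℕ => 2 ^ j • P).Finite := by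
    have h2 : (AddSubmonoid.multiples P : Set (SPt A B)).Finite :=
      finite_multiples.mpr hfin
    refine h2.subset ?_
    rintro _ ⟨j, rfl⟩
    exact ⟨2 ^ j, rfl⟩
  have hinj : Function.Injective fun j : ℕ => 2 ^ j • P := by
    intro i j hij
    have h3 : 2 ^ i • P = 2 ^ j • P := hij
    have hi := (dbl hna hP h1 hA hB i).2
    have hj := (dbl hna hP h1 hA hB j).2
    rw [h3] at hi
    have hX : v (xc (2 ^ j • P)) ≠ 0 := by
      intro h0
      rw [h0, zero_mul] at hj
      linarith
    have h4 : v 4 ^ i = v 4 ^ j := mul_left_cancel₀ hX (hi.trans hj.symm)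
    exact pow_right_injective₀ h40 h41.ne h4
  exact Set.infinite_range_of_injective hinj hfs

end dbl

end Pool.Agent.NH29.HY
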