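import Mathlib
import Pool.Agent.NH29.VE.Pts

set_option autoImplicit false
set_option linter.unusedSectionVars false

/-!
Adjoining roots of a polynomial.
-/

namespace Pool.Agent.NH29.HY

open NumberField Module IntermediateField Polynomial
open Pool.Agent.NH29.VE

lemma finrank_adjoin_range {k Ω : Type} [Field k] [Field Ω] [Algebra k Ω] {N : ℕ} (n : ℕ) :
    ∀ z : Fin n → Ω, (∀ i, IsIntegral k (z i)) → (∀ i, (minpoly k (z i)).natDegree ≤ N) →
      finrank k (adjoin k (Set.range z)) ≤ N ^ n := by
  induction n with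
  | zero =>
    intro z _ _
    have : Set.range z = ∅ := Set.range_eq_empty z
    rw [this, adjoin_empty, IntermediateField.finrank_bot, pow_zero]
  | succ n ih =>
    intro z hz hd
    have h1 : Set.range z = Set.range (fun i : Fin n => z i.castSucc) ∪ {z (Fin.last n)} := by
      ext x
      constructor
      · rintro ⟨i, rfl⟩
        refine Fin.lastCases ?_ (fun j => ?_) i
        · exact Or.inr rfl
        · exact Or.inl ⟨j, rfl⟩
      · rintro (⟨j, rfl⟩ | rfl)
        · exact ⟨_, rfl⟩
        · exact ⟨_, rfl⟩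
    rw [h1, adjoin_union]
    refine (finrank_sup_le _ _).trans ?_
    rw [pow_succ]
    refine Nat.mul_le_mul (ih _ (fun i => hz _) fun i => hd _) ?_
    rw [adjoin.finrank (hz _)]
    exact hd _

theorem five_roots (k : Type) [Field k] [NumberField k] (f : k[X]) (hf : Squarefree f) {m : ℕ}
    (hm : m ≤ f.natDegree) :
    ∃ (K : Type) (_ : Field K) (_ : NumberField K) (_ : Algebra k K) (z : Fin m → K) (h : K[X]),
      finrank k K ≤ f.natDegree ^ m ∧ Function.Injective z ∧
      f.map (algebraMap k K) = (∏ i, (X - C (z i))) * h := by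
  classical
  have hf0 : f ≠ 0 := hf.ne_zero
  set Ω := AlgebraicClosure k with hΩ
  have hsep : f.Separable := PerfectField.separable_iff_squarefree.2 hf
  have hcard := card_rootSet_eq_natDegree (K := Ω) hsep (IsAlgClosed.splits _)
  have hemb : Nonempty (Fin m ↪ f.rootSet Ω) := by
    apply Function.Embedding.nonempty_of_card_le
    rw [Fintype.card_fin, hcard]
    exact hm
  obtain ⟨φ⟩ := hemb
  set z : Fin m → Ω := fun i => (φ i : Ω) with hz
  have hzinj : Function.Injective z := fun i j h => φ.injective (Subtype.ext h)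
  have hz0 : ∀ i, aeval (z i) f = 0 := fun i => (mem_rootSet.1 (φ i).2).2
  have hint : ∀ i, IsIntegral k (z i) := fun i => Algebra.IsIntegral.isIntegral _
  have hdeg : ∀ i, (minpoly k (z i)).natDegree ≤ f.natDegree := fun i =>
    natDegree_le_of_dvd (minpoly.dvd k _ (hz0 i)) hf0
  have hfd : FiniteDimensional k (adjoin k (Set.range z)) :=
    finiteDimensional_adjoin (by rintro _ ⟨i, rfl⟩; exact hint i)
  have hNF : NumberField (adjoin k (Set.range z)) := NumberField.of_module_finite k _
  let K : IntermediateField k Ω := adjoin k (Set.range z)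
  let z' : Fin m → K := fun i => ⟨z i, subset_adjoin k _ ⟨i, rfl⟩⟩
  have hz'inj : Function.Injective z' := by
    intro i j h
    apply hzinj
    exact congrArg (fun x : K => (x : Ω)) h
  have hroot : ∀ i, aeval (z' i) f = 0 := by
    intro i
    apply Subtype.ext
    have h1 : (aeval (z' i) f : K).1 = aeval (z i) f := by
      have := (aeval_algebraMap_apply Ω (z' i) f).symm
      exact this
    rw [h1, hz0]
    rfl
  have hdvd : (∏ i, (X - C (z' i))) ∣ f.map (algebraMap k K) := by
    refine Finset.prod_dvd_of_coprime ?_ fun i _ => ?_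
    · intro i _ j _ hij
      exact pairwise_coprime_X_sub_C hz'inj hij
    · rw [dvd_iff_isRoot, IsRoot, eval_map, ← aeval_def, hroot]
  obtain ⟨h, hh⟩ := hdvd
  refine ⟨K, inferInstance, hNF, inferInstance, z', h, ?_, hz'inj, hh⟩
  exact finrank_adjoin_range m z hint hdeg

/-- adjoining two square roots -/
theorem two_sqrt (k : Type) [Field k] [NumberField k] (a b : k) :
    ∃ (K : Type) (_ : Field K) (_ : NumberField K) (_ : Algebra k K) (s t : K),
      finrank k K ≤ 4 ∧ s ^ 2 = algebraMap k K a ∧ t ^ 2 = algebraMap k K b := by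
  classical
  have key : ∀ a : k, ∃ s : AlgebraicClosure k, s ^ 2 = algebraMap k (AlgebraicClosure k) a :=
    fun a => IsAlgClosed.exists_pow_nat_eq _ (by norm_num)
  obtain ⟨s, hs⟩ := key a
  obtain ⟨t, ht⟩ := key b
  let Ω := AlgebraicClosure k
  set z : Fin 2 → Ω := ![s, t] with hz
  have hint : ∀ i, IsIntegral k (z i) := fun i => Algebra.IsIntegral.isIntegral _
  have hd : ∀ (x : Ω) (c : k), x ^ 2 = algebraMap k Ω c → (minpoly k x).natDegree ≤ 2 := by
    intro x c hx
    have hpm : (X ^ 2 - C c : k[X]).Monic := monic_X_pow_sub_C c two_ne_zero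
    have hev : aeval x (X ^ 2 - C c : k[X]) = 0 := by
      rw [map_sub, map_pow, aeval_X, aeval_C, hx]
      exact sub_self _
    refine (natDegree_le_of_dvd (minpoly.dvd k x hev) hpm.ne_zero).trans ?_
    rw [natDegree_X_pow_sub_C]
  have hdeg : ∀ i, (minpoly k (z i)).natDegree ≤ 2 := by
    intro i
    fin_cases i
    · exact hd s a hs
    · exact hd t b ht
  have hfd : FiniteDimensional k (adjoin k (Set.range z)) :=
    finiteDimensional_adjoin (by rintro _ ⟨i, rfl⟩; exact hint i)
  have hNF : NumberField (adjoin k (Set.range z)) := NumberField.of_module_finite k _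
  refine ⟨adjoin k (Set.range z), inferInstance, hNF, inferInstance,
    ⟨s, subset_adjoin k _ ⟨0, rfl⟩⟩, ⟨t, subset_adjoin k _ ⟨1, rfl⟩⟩, ?_, ?_, ?_⟩
  · exact finrank_adjoin_range 2 z hint hdeg
  · exact Subtype.ext hs
  · exact Subtype.ext ht

end Pool.Agent.NH29.HY
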