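import Mathlib
import Pool.Agent.NH29.HY.Roots
import Pool.Agent.Y733.VR.Ht
import Pool.Agent.H951R2.MSFinite

set_option autoImplicit false
set_option linter.unusedSectionVars false

/-!
The hyperelliptic curve `y² = f(x)` is birational to `y² = (x³ + A x + B) (x - ρ) f₃(x)` over an
extension of bounded degree.
-/

namespace Pool.Agent.NH29.HY

open NumberField Module Polynomial Height
open Pool.Agent.NH29.VE Pool.Agent.Y733.VR

section alg

variable {K : Type} [Field K] [NumberField K]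

lemma hh_add_abs (x s : K) : |hh (x + s) - hh x| ≤ hh s + Real.log 2 := by
  rw [abs_le]
  have h1 := hh_add_le x s
  have h2 := hh_sub_le (x + s) s
  rw [add_sub_cancel_right] at h2
  constructor <;> linarith

/-- the four roots -/
theorem model0 (F h : K[X]) (z : Fin 5 → K) (hz : Function.Injective z) (hh0 : h ≠ 0)
    (hF : F = (∏ i, (X - C (z i))) * h) {d : ℕ} (hd : d + 1 = 2 * ((h.natDegree + 4) / 2 - 1)) :
    ∃ (r : Fin 4 → K) (g : K[X]), Function.Injective r ∧ g ≠ 0 ∧ g.natDegree ≤ d ∧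
      ∀ (L : Type) [Field L] [NumberField L] [Algebra K L],
        ∃ (μ c : L → L) (bad : L) (Cst : ℝ), Function.Injective μ ∧
          (∀ x, x ≠ bad → c x ≠ 0 ∧ aeval (μ x) F * c x ^ 2 =
            (x - algebraMap K L (r 0)) * (x - algebraMap K L (r 1)) * (x - algebraMap K L (r 2)) *
              ((x - algebraMap K L (r 3)) * aeval x g)) ∧
          ∀ x, |hh (μ x) - hh x| ≤ Cst := by
  have hne : ∀ i j : Fin 5, i ≠ j → z i - z j ≠ 0 := fun i j hij => sub_ne_zero.2 fun h => hij (hz h)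
  rcases Nat.even_or_odd h.natDegree with he | ho
  · -- odd degree
    refine ⟨fun i => z i.succ, (X - C (z 0)) * h, ?_, ?_, ?_, ?_⟩
    · intro i j hij
      exact Fin.succ_injective _ (hz hij)
    · exact mul_ne_zero (X_sub_C_ne_zero _) hh0
    · rw [natDegree_mul (X_sub_C_ne_zero _) hh0, natDegree_X_sub_C]
      obtain ⟨m, hm⟩ := he
      omega
    · intro L _ _ _
      refine ⟨id, fun _ => 1, 0, 0, Function.injective_id, fun x _ => ⟨one_ne_zero, ?_⟩, ?_⟩
      · rw [hF]
        simp only [map_mul, Fin.prod_univ_five, map_sub, aeval_X, aeval_C, id]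
        have e1 : (Fin.succ (0 : Fin 4)) = (1 : Fin 5) := rfl
        have e2 : (Fin.succ (1 : Fin 4)) = (2 : Fin 5) := rfl
        have e3 : (Fin.succ (2 : Fin 4)) = (3 : Fin 5) := rfl
        have e4 : (Fin.succ (3 : Fin 4)) = (4 : Fin 5) := rfl
        rw [e1, e2, e3, e4]
        ring
      · intro x
        simp
  · -- even degree
    set m := h.natDegree with hm
    set h' : K[X] := h.comp (X + C (z 0)) with hh'
    have hnd : h'.natDegree = m := by
      rw [hh', natDegree_comp, natDegree_X_add_C, mul_one]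
    have hh'0 : h' ≠ 0 := by
      intro h0
      apply hh0
      have := congrArg (fun p : K[X] => p.comp (X - C (z 0))) h0
      simp only [hh', comp_assoc, add_comp, X_comp, C_comp, sub_add_cancel, comp_X, zero_comp] at this
      exact this
    refine ⟨fun i => (z i.succ - z 0)⁻¹, C (∏ i : Fin 4, (z 0 - z i.succ)) * h'.reverse,
      ?_, ?_, ?_, ?_⟩
    · intro i j hij
      have h1 : z i.succ - z 0 = z j.succ - z 0 := inv_injective hij
      exact Fin.succ_injective _ (hz (sub_left_injective h1))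
    · refine mul_ne_zero (C_ne_zero.2 (Finset.prod_ne_zero_iff.2 fun i _ => ?_)) ?_
      · exact hne _ _ (Fin.succ_ne_zero i).symm
      · rwa [Ne, reverse_eq_zero]
    · refine (natDegree_C_mul_le _ _).trans ((reverse_natDegree_le _).trans ?_)
      rw [hnd]
      obtain ⟨l, hl⟩ := ho
      omega
    · intro L _ _ _
      obtain ⟨l, hl⟩ := ho
      refine ⟨fun x => x⁻¹ + algebraMap K L (z 0), fun x => x ^ (l + 3), 0,
        hh (algebraMap K L (z 0)) + Real.log 2, ?_, fun x hx => ⟨pow_ne_zero _ hx, ?_⟩, ?_⟩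
      · intro x y hxy
        exact inv_injective (add_right_cancel hxy)
      · have hrev : aeval x h'.reverse = x ^ m * aeval (x⁻¹ + algebraMap K L (z 0)) h := by
          let _ : Invertible (x⁻¹ : L) := ⟨x, mul_inv_cancel₀ hx, inv_mul_cancel₀ hx⟩
          have h1 := eval₂_reverse_mul_pow (algebraMap K L) (x⁻¹ : L) h'
          have h2 : (⅟(x⁻¹ : L)) = x := rfl
          rw [h2, hnd] at h1
          have h3 : eval₂ (algebraMap K L) x⁻¹ h' =
              aeval (x⁻¹ + algebraMap K L (z 0)) h := by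
            rw [← aeval_def, hh', aeval_comp]
            simp
          rw [h3, ← aeval_def] at h1
          rw [← h1, mul_comm, mul_assoc, ← mul_pow, inv_mul_cancel₀ hx, one_pow, mul_one]
        have hkey : ∀ i : Fin 5, i ≠ 0 →
            (x⁻¹ + algebraMap K L (z 0) - algebraMap K L (z i)) * x =
              (algebraMap K L (z 0) - algebraMap K L (z i)) *
                (x - algebraMap K L (z i - z 0)⁻¹) := by
          intro i hi
          have h1 : algebraMap K L (z i) - algebraMap K L (z 0) ≠ 0 := by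
            rw [← map_sub]
            exact (_root_.map_ne_zero _).2 (hne _ _ hi)
          rw [map_inv₀, map_sub]
          field_simp
          ring
        have k1 := hkey 1 (by decide)
        have k2 := hkey 2 (by decide)
        have k3 := hkey 3 (by decide)
        have k4 := hkey 4 (by decide)
        have e1 : (Fin.succ (0 : Fin 4)) = (1 : Fin 5) := rfl
        have e2 : (Fin.succ (1 : Fin 4)) = (2 : Fin 5) := rfl
        have e3 : (Fin.succ (2 : Fin 4)) = (3 : Fin 5) := rfl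
        have e4 : (Fin.succ (3 : Fin 4)) = (4 : Fin 5) := rfl
        rw [hF]
        simp only [map_mul, Fin.prod_univ_five, Fin.prod_univ_four, map_sub, aeval_X,
          aeval_C, e1, e2, e3, e4] at *
        rw [hrev, hl]
        set a0 := algebraMap K L (z 0)
        set a1 := algebraMap K L (z 1)
        set a2 := algebraMap K L (z 2)
        set a3 := algebraMap K L (z 3)
        set a4 := algebraMap K L (z 4)
        set b1 := algebraMap K L (z 1 - z 0)⁻¹
        set b2 := algebraMap K L (z 2 - z 0)⁻¹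
        set b3 := algebraMap K L (z 3 - z 0)⁻¹
        set b4 := algebraMap K L (z 4 - z 0)⁻¹
        set H := aeval (x⁻¹ + a0) h
        have hx1 : x⁻¹ * x = 1 := inv_mul_cancel₀ hx
        calc (x⁻¹ + a0 - a0) * (x⁻¹ + a0 - a1) * (x⁻¹ + a0 - a2) * (x⁻¹ + a0 - a3) *
              (x⁻¹ + a0 - a4) * H * (x ^ (l + 3)) ^ 2
            = (x⁻¹ * x) * ((x⁻¹ + a0 - a1) * x) * ((x⁻¹ + a0 - a2) * x) *
              ((x⁻¹ + a0 - a3) * x) * ((x⁻¹ + a0 - a4) * x) * (x ^ (2 * l + 1) * H) := by
              rw [← pow_mul, show (l + 3) * 2 = (2 * l + 1) + 5 by ring, pow_add]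
              ring
          _ = _ := by
              rw [k1, k2, k3, k4, hx1]
              ring
      · intro x
        have h1 := hh_add_abs x⁻¹ (algebraMap K L (z 0))
        rwa [hh_inv] at h1

/-- the short Weierstrass form -/
theorem model1 (F h : K[X]) (z : Fin 5 → K) (hz : Function.Injective z) (hh0 : h ≠ 0)
    (hF : F = (∏ i, (X - C (z i))) * h) {d : ℕ} (hd : d + 1 = 2 * ((h.natDegree + 4) / 2 - 1)) :
    ∃ (A B ρ : K) (g : K[X]), 4 * A ^ 3 + 27 * B ^ 2 ≠ 0 ∧ g ≠ 0 ∧ g.natDegree ≤ d ∧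
      ∀ (L : Type) [Field L] [NumberField L] [Algebra K L],
        ∃ (μ c : L → L) (bad : L) (Cst : ℝ), Function.Injective μ ∧
          (∀ x, x ≠ bad → c x ≠ 0 ∧ aeval (μ x) F * c x ^ 2 =
            (x ^ 3 + algebraMap K L A * x + algebraMap K L B) *
              ((x - algebraMap K L ρ) * aeval x g)) ∧
          ∀ x, |hh (μ x) - hh x| ≤ Cst := by
  obtain ⟨r, g, hr, hg, hgd, hL⟩ := model0 F h z hz hh0 hF hd
  set s : K := (r 0 + r 1 + r 2) / 3 with hs
  have hne : ∀ i j : Fin 4, i ≠ j → r i - r j ≠ 0 := fun i j hij => sub_ne_zero.2 fun h => hij (hr h)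
  refine ⟨(s - r 0) * (s - r 1) + (s - r 0) * (s - r 2) + (s - r 1) * (s - r 2),
    (s - r 0) * (s - r 1) * (s - r 2), r 3 - s, g.comp (X + C s), ?_, ?_, ?_, ?_⟩
  · have h1 : 4 * ((s - r 0) * (s - r 1) + (s - r 0) * (s - r 2) + (s - r 1) * (s - r 2)) ^ 3 +
        27 * ((s - r 0) * (s - r 1) * (s - r 2)) ^ 2 =
        -((r 0 - r 1) * (r 0 - r 2) * (r 1 - r 2)) ^ 2 := by
      rw [hs]
      ring
    rw [h1, neg_ne_zero]
    exact pow_ne_zero _ (mul_ne_zero (mul_ne_zero (hne _ _ (by decide)) (hne _ _ (by decide)))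
      (hne _ _ (by decide)))
  · intro h0
    apply hg
    have := congrArg (fun p : K[X] => p.comp (X - C s)) h0
    simp only [comp_assoc, add_comp, X_comp, C_comp, sub_add_cancel, comp_X, zero_comp] at this
    exact this
  · rw [natDegree_comp, natDegree_X_add_C, mul_one]
    exact hgd
  · intro L _ _ _
    obtain ⟨μ, c, bad, Cst, h1, h2, h3⟩ := hL L
    refine ⟨fun x => μ (x + algebraMap K L s), fun x => c (x + algebraMap K L s),
      bad - algebraMap K L s, Cst + (hh (algebraMap K L s) + Real.log 2), ?_, ?_, ?_⟩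
    · intro x y hxy
      exact add_right_cancel (h1 hxy)
    · intro x hx
      have hx' : x + algebraMap K L s ≠ bad := fun h => hx (by rw [← h, add_sub_cancel_right])
      obtain ⟨e1, e2⟩ := h2 _ hx'
      refine ⟨e1, ?_⟩
      simp only at e2 ⊢
      rw [e2]
      have e3 : aeval x (g.comp (X + C s)) = aeval (x + algebraMap K L s) g := by
        rw [aeval_comp]
        simp
      rw [e3]
      simp only [map_add, map_mul, map_sub]
      have hs3 : 3 * algebraMap K L s = algebraMap K L (r 0) + algebraMap K L (r 1) +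
          algebraMap K L (r 2) := by
        rw [hs]
        simp only [map_div₀, map_add, map_ofNat]
        field_simp
      linear_combination (x ^ 2 * ((x + algebraMap K L s - algebraMap K L (r 3)) *
        aeval (x + algebraMap K L s) g)) * hs3
    · intro x
      have h4 := h3 (x + algebraMap K L s)
      have h5 := hh_add_abs x (algebraMap K L s)
      rw [abs_le] at h4 h5 ⊢
      constructor <;> linarith

lemma int_le (v : FinitePlace K) {x : K} (hx : IsIntegral ℤ x) : v x ≤ 1 :=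
  H951R2.MS.fp_int_le_one v ⟨x, hx⟩

/-- the sizes at a place above `2` -/
lemma two_big (v : FinitePlace K) (hv : v (2 : K) < 1) {A : K} {y : ℤ} (hy : y ≠ 0)
    (hA : IsIntegral ℤ (y • A)) {x : K} (hx : x = ((2 * (y : K)) ^ 2)⁻¹) :
    1 < v x ∧ v A < v x ^ 2 ∧ v A < v x ^ 3 := by
  have hy' : (y : K) ≠ 0 := by exact_mod_cast hy
  have h2 : 0 < v (2 : K) := v.val.pos two_ne_zero
  have hvy : 0 < v (y : K) := v.val.pos hy'
  have hvy1 : v (y : K) ≤ 1 := by
    have := int_le v (x := (y : K)) (isIntegral_algebraMap (R := ℤ) (x := y))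
    exact this
  have h1 := int_le v hA
  rw [zsmul_eq_mul, map_mul] at h1
  have hvx : v x = ((v 2 * v (y : K)) ^ 2)⁻¹ := by rw [hx, map_inv₀, map_pow, map_mul]
  have hA0 : 0 ≤ v A := v.val.nonneg _
  set a := v (2 : K) with ha
  set b := v (y : K) with hb
  have hab : 0 < a * b := mul_pos h2 hvy
  have hab1 : a * b < b := by nlinarith
  have hab2 : a * b < 1 := hab1.trans_le hvy1
  have hX1 : 1 < v x := by
    rw [hvx]
    exact (one_lt_inv₀ (by positivity)).2 (pow_lt_one₀ hab.le hab2 two_ne_zero)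
  have hA2 : v A < v x ^ 2 := by
    by_contra hc
    rw [not_lt] at hc
    have e1 : v x ^ 2 * (a * b) ^ 4 = 1 := by
      rw [hvx]
      field_simp
    have e2 : (a * b) ^ 4 ≤ a * b := by
      have := pow_le_pow_of_le_one hab.le hab2.le (show 1 ≤ 4 by norm_num)
      rwa [pow_one] at this
    have hx0 : 0 < v x ^ 2 := by positivity
    have hA1 : 0 < v A := hx0.trans_le hc
    have e3 : v x ^ 2 * (a * b) ^ 4 ≤ v A * (a * b) := mul_le_mul hc e2 (by positivity) hA0
    have e4 : v A * (a * b) < v A * b := mul_lt_mul_of_pos_left hab1 hA1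
    linarith
  refine ⟨hX1, hA2, hA2.trans ?_⟩
  exact pow_lt_pow_right₀ hX1 (by norm_num)

end alg

/-- **the model** -/
theorem model (k : Type) [Field k] [NumberField k] (f : k[X]) (hf : Squarefree f)
    (h5 : 5 ≤ f.natDegree) {d : ℕ} (hd : d + 1 = 2 * ((f.natDegree - 1) / 2 - 1)) :
    ∃ (K : Type) (_ : Field K) (_ : NumberField K) (_ : Algebra k K) (A B ρ η x₀ y₀ : K)
      (g : K[X]) (μ c : K → K) (bad : K) (Cst : ℝ),
      finrank k K ≤ 4 * f.natDegree ^ 5 ∧ 4 * A ^ 3 + 27 * B ^ 2 ≠ 0 ∧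
      η ^ 2 = ρ ^ 3 + A * ρ + B ∧ y₀ ^ 2 = x₀ ^ 3 + A * x₀ + B ∧ g ≠ 0 ∧ g.natDegree ≤ d ∧
      Function.Injective μ ∧
      (∀ x, x ≠ bad → c x ≠ 0 ∧ aeval (μ x) f * c x ^ 2 =
        (x ^ 3 + A * x + B) * ((x - ρ) * g.eval x)) ∧
      (∀ x, |hh (μ x) - hh x| ≤ Cst) ∧
      (∀ v : FinitePlace K, v (2 : K) < 1 →
        1 < v x₀ ∧ v A < v x₀ ^ 2 ∧ v B < v x₀ ^ 3) := by
  classical
  have hf0 : f ≠ 0 := hf.ne_zero
  obtain ⟨K₁, i1, i2, i3, z, h, hfr, hz, hF⟩ := five_roots k f hf h5
  have hmap0 : f.map (algebraMap k K₁) ≠ 0 := (Polynomial.map_ne_zero_iff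
    (algebraMap k K₁).injective).2 hf0
  have hh0 : h ≠ 0 := by
    rintro rfl
    rw [mul_zero] at hF
    exact hmap0 hF
  have hprod : (∏ i, (X - C (z i))) ≠ (0 : K₁[X]) :=
    Finset.prod_ne_zero_iff.2 fun i _ => X_sub_C_ne_zero _
  have hnd : f.natDegree = 5 + h.natDegree := by
    rw [← natDegree_map (algebraMap k K₁), hF, natDegree_mul hprod hh0,
      natDegree_finsetProd_X_sub_C_eq_card]
    simp
  obtain ⟨A₁, B₁, ρ₁, g₁, hD, hg, hgd, hL⟩ := model1 (f.map (algebraMap k K₁)) h z hz hh0 hF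
    (d := d) (by rw [hd, hnd]; congr 3; omega)
  have halg : Algebra.IsAlgebraic ℤ K₁ :=
    (IsFractionRing.comap_isAlgebraic_iff (A := ℤ) (K := ℚ) (C := K₁)).2 inferInstance
  obtain ⟨y, hy, hyint⟩ := Algebra.IsAlgebraic.exists_integral_multiples ℤ ({A₁, B₁} : Finset K₁)
  set x₁ : K₁ := ((2 * (y : K₁)) ^ 2)⁻¹ with hx₁
  obtain ⟨K, j1, j2, j3, s, t, hfr2, hs, ht⟩ := two_sqrt K₁ (ρ₁ ^ 3 + A₁ * ρ₁ + B₁)
    (x₁ ^ 3 + A₁ * x₁ + B₁)
  let ak : Algebra k K := ((algebraMap K₁ K).comp (algebraMap k K₁)).toAlgebra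
  have : IsScalarTower k K₁ K := IsScalarTower.of_algebraMap_eq fun x => rfl
  obtain ⟨μ, c, bad, Cst, h1, h2, h3⟩ := hL K
  refine ⟨K, j1, j2, ak, algebraMap K₁ K A₁, algebraMap K₁ K B₁, algebraMap K₁ K ρ₁, s,
    algebraMap K₁ K x₁, t, g₁.map (algebraMap K₁ K), μ, c, bad, Cst, ?_, ?_, ?_, ?_, ?_, ?_, h1,
    ?_, h3, ?_⟩
  · rw [← finrank_mul_finrank k K₁ K, mul_comm]
    exact Nat.mul_le_mul hfr2 hfr
  · have e : 4 * (algebraMap K₁ K A₁) ^ 3 + 27 * (algebraMap K₁ K B₁) ^ 2 =
        algebraMap K₁ K (4 * A₁ ^ 3 + 27 * B₁ ^ 2) := by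
      simp only [map_add, map_mul, map_pow, map_ofNat]
    rw [e]
    exact (_root_.map_ne_zero _).2 hD
  · rw [hs]; simp only [map_add, map_mul, map_pow]
  · rw [ht]; simp only [map_add, map_mul, map_pow]
  · exact (Polynomial.map_ne_zero_iff (algebraMap K₁ K).injective).2 hg
  · rw [natDegree_map]; exact hgd
  · intro x hx
    obtain ⟨e1, e2⟩ := h2 x hx
    refine ⟨e1, ?_⟩
    rw [aeval_map_algebraMap] at e2
    rw [e2, eval_map_algebraMap]
  · intro v hv
    have hint : ∀ a ∈ ({A₁, B₁} : Finset K₁), IsIntegral ℤ (y • algebraMap K₁ K a) := by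
      intro a ha
      have h4 := map_isIntegral_int (algebraMap K₁ K) (hyint a ha)
      have h5 : algebraMap K₁ K (y • a) = y • algebraMap K₁ K a := map_zsmul _ _ _
      rwa [h5] at h4
    have hx : algebraMap K₁ K x₁ = ((2 * (y : K)) ^ 2)⁻¹ := by
      rw [hx₁]
      simp only [map_inv₀, map_pow, map_mul, map_ofNat, map_intCast]
    have t1 := two_big v hv hy (hint A₁ (by simp)) hx
    have t2 := two_big v hv hy (hint B₁ (by simp)) hx
    exact ⟨t1.1, t1.2.1, t2.2.2⟩

end Pool.Agent.NH29.HY
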