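import Mathlib
import Pool.Agent.NH29.HY.Model
import Pool.Agent.NH29.HY.DiscG
import Pool.Agent.NH29.HY.GlbB

set_option autoImplicit false
set_option linter.unusedSectionVars false

/-!
Common lemmas.
-/

namespace Pool.Agent.NH29.HY

open NumberField WeierstrassCurve IsDedekindDomain Height Function Module
open Pool.Agent.TH942 Pool.Agent.TH954 Pool.Agent.NH29.VE Pool.Agent.Y733.VR

section

variable {K : Type} [Field K] [NumberField K]

lemma two_sum : ∑ᶠ v : FinitePlace K, Real.log (v.val (2 : K)) = -(finrank ℚ K * Real.log 2) := by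
  have h := sm_abs (K := K) (x := 2) two_ne_zero
  unfold sm at h
  have h1 : ∀ w : InfinitePlace K, w.val (2 : K) = 2 := by
    intro w
    have h2 : w (2 : K) = ‖w.embedding 2‖ := (InfinitePlace.norm_embedding_eq w 2).symm
    have h3 : w.val (2 : K) = w (2 : K) := rfl
    rw [h3, h2, map_ofNat]
    simp
  have h2 : ∑ w : InfinitePlace K, (w.mult : ℝ) * Real.log (w.val (2 : K)) =
      finrank ℚ K * Real.log 2 := by
    simp_rw [h1]
    rw [← Finset.sum_mul]
    congr 1
    exact_mod_cast InfinitePlace.sum_mult_eq (K := K)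
  rw [h2] at h
  linarith

lemma sht_hh {A B : K} {P : SPt A B} (hP : P ≠ 0) : sht P = hh (xc P) * finrank ℚ K := by
  obtain ⟨x, y, h, rfl⟩ := exists_some hP
  rw [← hh_mul_deg, sht, Affine.Point.xRep_some, logHeight₁_eq_logHeight]
  rfl

lemma avoid {A B : K} (Z : Finset K) : ∃ M : ℝ, 0 ≤ M ∧ ∀ P : SPt A B, M < sht P →
    P ≠ 0 ∧ xc P ∉ Z := by
  have h0 : ∀ z : K, 0 ≤ hh z * finrank ℚ K := fun z =>
    mul_nonneg (hh_nonneg z) (Nat.cast_nonneg _)
  refine ⟨∑ z ∈ Z, hh z * finrank ℚ K, Finset.sum_nonneg fun z _ => h0 z, fun P hM => ?_⟩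
  have hP : P ≠ 0 := by
    rintro rfl
    rw [sht_zero] at hM
    exact absurd hM (not_lt.2 (Finset.sum_nonneg fun z _ => h0 z))
  refine ⟨hP, fun hx => ?_⟩
  have h1 : hh (xc P) * finrank ℚ K ≤ ∑ z ∈ Z, hh z * finrank ℚ K :=
    Finset.single_le_sum (f := fun z => hh z * (finrank ℚ K : ℝ)) (fun z _ => h0 z) hx
  rw [← sht_hh hP] at h1
  linarith

/-- the places with an odd valuation -/
lemma odd_fin {x : K} (hx : x ≠ 0) : {v : FinitePlace K | ¬ Ev v.maximalIdeal x}.Finite := by
  refine Set.Finite.subset (FinitePlace.hasFiniteMulSupport hx) ?_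
  intro v hv h1
  apply hv
  apply ev_of_abs
  rw [FinitePlace.mk_maximalIdeal]
  exact h1

end

section transfer

variable (k : Type) [Field k] [NumberField k] {F : Type} [Field F] [NumberField F] [Algebra k F]

lemma log_div (x : F) : logHeight₁ x / finrank k F = finrank ℚ k * hh x := by
  have hk : (0 : ℝ) < finrank ℚ k := deg_pos
  have hkF : (0 : ℝ) < finrank k F := by
    have : FiniteDimensional k F := FiniteDimensional.right ℚ k F
    exact_mod_cast finrank_pos
  rw [hh_mul_deg, finrank_tower k F]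
  field_simp

lemma sub_field (S : Set F) :
    finrank k (IntermediateField.adjoin k S) ≤ finrank k F ∧
      ld (IntermediateField.adjoin k S) ≤ ld F ∧
      ∀ x : IntermediateField.adjoin k S, hh (x : F) = hh x := by
  have hfd : FiniteDimensional k F := FiniteDimensional.right ℚ k F
  have hfd2 : FiniteDimensional (IntermediateField.adjoin k S) F :=
    FiniteDimensional.right k (IntermediateField.adjoin k S) F
  refine ⟨?_, ld_mono _ _, fun x => ?_⟩
  · rw [← finrank_mul_finrank k (IntermediateField.adjoin k S) F]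
    exact Nat.le_mul_of_pos_right _ finrank_pos
  · exact hh_ext F x

end transfer

end Pool.Agent.NH29.HY
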