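import Mathlib
import Pool.Agent.NH29.HY.Com
import Pool.Agent.NH29.HY.AlgA

set_option autoImplicit false
set_option linter.unusedSectionVars false

/-!
Vojta's inequality on powers of a hyperelliptic curve: the exceptional set depends on `ε`.
-/

namespace Pool.Agent.NH29.HY

open NumberField WeierstrassCurve IsDedekindDomain Height Function Module
open Pool.Agent.TH942 Pool.Agent.TH954 Pool.Agent.NH29.VE Pool.Agent.Y733.VR

section defs

/-- the height -/
noncomputable def hyp {k : Type} [Field k] (f : Polynomial k) {F : Type} [Field F]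
    [NumberField F] [Algebra k F] {n : ℕ} (x : Fin n → F) : ℝ :=
  (((f.natDegree - 1) / 2 - 1 : ℕ) : ℝ) * ((∑ i, logHeight₁ (x i)) / finrank k F)

/-- Vojta's inequality -/
def VH {k : Type} [Field k] [NumberField k] (f : Polynomial k) {n : ℕ}
    (G : MvPolynomial (Fin n) k) (κ ε C : ℝ) (d : ℕ) : Prop :=
  ∀ (F : Type) [Field F] [NumberField F] [Algebra k F] (x y : Fin n → F),
    (∀ i, y i ^ 2 = Polynomial.aeval (x i) f) → finrank k F ≤ d →
    IntermediateField.adjoin k (Set.range x ∪ Set.range y) = ⊤ →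
    MvPolynomial.aeval x G ≠ 0 →
    hyp f x ≤ κ * lD k F + ε * hyp f x + C

variable {k : Type} [Field k] [NumberField k]

lemma hyp_eq (f : Polynomial k) {F : Type} [Field F] [NumberField F] [Algebra k F] {n : ℕ}
    (x : Fin n → F) : hyp f x =
      finrank ℚ k * ((((f.natDegree - 1) / 2 - 1 : ℕ) : ℝ) * ∑ i, hh (x i)) := by
  unfold hyp
  rw [Finset.sum_div]
  simp_rw [log_div k]
  rw [← Finset.mul_sum]
  ring

/-- no condition on the field of definition is needed -/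
lemma VH_transfer {f : Polynomial k} {n : ℕ} {G : MvPolynomial (Fin n) k} {κ ε C : ℝ} {d : ℕ}
    (hκ : 0 ≤ κ) (hV : VH f G κ ε C d) (F' : Type) [Field F'] [NumberField F'] [Algebra k F']
    (x y : Fin n → F') (hxy : ∀ i, y i ^ 2 = Polynomial.aeval (x i) f) (hfin : finrank k F' ≤ d)
    (hG : MvPolynomial.aeval x G ≠ 0) :
    (1 - ε) * ((((f.natDegree - 1) / 2 - 1 : ℕ) : ℝ) * ∑ i, hh (x i)) ≤
      κ * (ld F' - ld k) + C / finrank ℚ k := by
  obtain ⟨sf1, sf2, sf3⟩ := sub_field k (F := F') (Set.range x ∪ Set.range y)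
  set F := IntermediateField.adjoin k (Set.range x ∪ Set.range y) with hF
  have hxm : ∀ i, x i ∈ F := fun i => IntermediateField.subset_adjoin k _ (Or.inl ⟨i, rfl⟩)
  have hym : ∀ i, y i ∈ F := fun i => IntermediateField.subset_adjoin k _ (Or.inr ⟨i, rfl⟩)
  set x' : Fin n → F := fun i => ⟨x i, hxm i⟩ with hx'
  set y' : Fin n → F := fun i => ⟨y i, hym i⟩ with hy'
  have h1 := hV F x' y' (fun i => by
    apply Subtype.ext
    have h2 : ((Polynomial.aeval (x' i) f : F) : F') = Polynomial.aeval (x i) f :=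
      (Polynomial.aeval_algebraMap_apply F' (x' i) f).symm
    rw [h2]
    exact hxy i) (sf1.trans hfin) (by
    refine adjoin_self_top (Set.range x ∪ Set.range y) _ ?_
    rw [Set.image_union, ← Set.range_comp, ← Set.range_comp]
    rfl) (by
    intro h0
    apply hG
    have h2 : MvPolynomial.aeval x G = ((MvPolynomial.aeval x' G : F) : F') :=
      MvPolynomial.aeval_algebraMap_apply F' x' G
    rw [h2, h0]
    rfl)
  rw [hyp_eq, lD_eq] at h1
  have hsum : ∑ i, hh (x' i) = ∑ i, hh (x i) := Finset.sum_congr rfl fun i _ => (sf3 (x' i)).symm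
  rw [hsum] at h1
  have hk : (0 : ℝ) < finrank ℚ k := deg_pos
  set E : ℝ := (((f.natDegree - 1) / 2 - 1 : ℕ) : ℝ) * ∑ i, hh (x i) with hE
  have h3 : κ * (finrank ℚ k * (ld F - ld k)) ≤ κ * (finrank ℚ k * (ld F' - ld k)) := by
    refine mul_le_mul_of_nonneg_left ?_ hκ
    refine mul_le_mul_of_nonneg_left ?_ hk.le
    linarith
  have h4 : (finrank ℚ k : ℝ) * ((1 - ε) * E) ≤
      finrank ℚ k * (κ * (ld F' - ld k) + C / finrank ℚ k) := by
    have h5 : (finrank ℚ k : ℝ) * (κ * (ld F' - ld k) + C / finrank ℚ k) =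
        κ * (finrank ℚ k * (ld F' - ld k)) + C := by
      field_simp
    rw [h5]
    linarith
  exact le_of_mul_le_mul_left h4 hk

end defs

/-- the final arithmetic -/
lemma arithA {e κ ε M D S1 S2 tT lF lk C₀ C₁ C₂ C SV SB SR cs P1 P2 sg qT : ℝ}
    (hD : 0 < D) (he : 0 ≤ e) (hκ : 0 ≤ κ) (hε : 0 ≤ 1 - ε)
    (h1 : (1 - ε) * (e * sg) ≤ κ * (lF - lk) + C)
    (h2 : P1 + P2 - 2 * cs ≤ sg)
    (h3 : S1 = P1 * D) (h4 : S2 = P2 * D)
    (h5 : lF ≤ (1 / 2 * (SV + SB + SR)) / D + C₂)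
    (h6 : 2 * SV + tT ≤ 2 * (2 * e) * (S1 + S2) + C₁)
    (h7 : M - C₀ ≤ S1 + S2) (h8 : S1 + S2 ≤ M + C₀) (h9 : qT - C₀ ≤ tT) :
    ((1 - ε) * e - κ * e) * M + κ * qT / 4 ≤
      (1 - ε) * e * (C₀ + 2 * cs * D) + κ * (e * C₀ + C₀ / 4 + C₁ / 4 + 1 / 2 * (SB + SR) +
        D * C₂ - D * lk) + C * D := by
  have k1 : lF * D ≤ 1 / 2 * (SV + SB + SR) + C₂ * D := by
    have := mul_le_mul_of_nonneg_right h5 hD.le
    rwa [add_mul, div_mul_cancel₀ _ hD.ne'] at this
  have k2 : (1 - ε) * e * (M - C₀ - 2 * cs * D) ≤ (1 - ε) * e * (sg * D) := by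
    refine mul_le_mul_of_nonneg_left ?_ (mul_nonneg hε he)
    have := mul_le_mul_of_nonneg_right h2 hD.le
    have e1 : (P1 + P2 - 2 * cs) * D = S1 + S2 - 2 * cs * D := by rw [h3, h4]; ring
    rw [e1] at this
    linarith
  have k3 : (1 - ε) * e * (sg * D) ≤ κ * (lF * D - D * lk) + C * D := by
    have := mul_le_mul_of_nonneg_right h1 hD.le
    have e1 : (1 - ε) * (e * sg) * D = (1 - ε) * e * (sg * D) := by ring
    have e2 : (κ * (lF - lk) + C) * D = κ * (lF * D - D * lk) + C * D := by ring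
    rwa [e1, e2] at this
  have k4 : lF * D ≤ e * M + e * C₀ - qT / 4 + C₀ / 4 + C₁ / 4 + 1 / 2 * (SB + SR) + D * C₂ := by
    have e1 : e * (S1 + S2) ≤ e * (M + C₀) := mul_le_mul_of_nonneg_left h8 he
    have e2 : 2 * (2 * e) * (S1 + S2) = 4 * (e * (S1 + S2)) := by ring
    have e3 : e * (M + C₀) = e * M + e * C₀ := by ring
    rw [e2] at h6
    rw [e3] at e1
    linarith
  have k5 : κ * (lF * D - D * lk) ≤ κ * (e * M + e * C₀ - qT / 4 + C₀ / 4 + C₁ / 4 +
      1 / 2 * (SB + SR) + D * C₂ - D * lk) := by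
    refine mul_le_mul_of_nonneg_left ?_ hκ
    linarith
  have e4 : (1 - ε) * e * (M - C₀ - 2 * cs * D) = (1 - ε) * e * M -
    (1 - ε) * e * (C₀ + 2 * cs * D) := by ring
  have e5 : κ * (e * M + e * C₀ - qT / 4 + C₀ / 4 + C₁ / 4 +
      1 / 2 * (SB + SR) + D * C₂ - D * lk) = κ * e * M - κ * qT / 4 +
      κ * (e * C₀ + C₀ / 4 + C₁ / 4 + 1 / 2 * (SB + SR) + D * C₂ - D * lk) := by ring
  have e6 : ((1 - ε) * e - κ * e) * M = (1 - ε) * e * M - κ * e * M := by ring
  rw [e6]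
  linarith

/-- a point of infinite order without relation to `Q` -/
lemma indep {A : Type} [AddCommGroup A] (Q T : A) (hT : ¬ IsOfFinAddOrder T) :
    ∃ T' : A, ¬ IsOfFinAddOrder T' ∧ ∀ c : ℤ, c ≠ 0 → (2 : ℤ) • Q ≠ c • T' := by
  have hz : ∀ n : ℤ, n ≠ 0 → n • T ≠ 0 := by
    intro n hn h0
    exact hT (isOfFinAddOrder_iff_zsmul_eq_zero.2 ⟨n, hn, h0⟩)
  by_cases h : ∃ c : ℤ, c ≠ 0 ∧ (2 : ℤ) • Q = c • T
  · obtain ⟨c₀, hc₀, h⟩ := h
    refine ⟨(2 * c₀) • T, ?_, ?_⟩
    · intro hfin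
      obtain ⟨n, hn, h0⟩ := isOfFinAddOrder_iff_zsmul_eq_zero.1 hfin
      rw [← mul_smul] at h0
      exact hz _ (mul_ne_zero hn (mul_ne_zero two_ne_zero hc₀)) h0
    · intro c hc h1
      rw [h, ← mul_smul] at h1
      have h2 : (c₀ - c * (2 * c₀)) • T = 0 := by rw [sub_smul, h1, sub_self]
      have h3 : c₀ - c * (2 * c₀) ≠ 0 := by
        have : c₀ - c * (2 * c₀) = c₀ * (1 - 2 * c) := by ring
        rw [this]
        exact mul_ne_zero hc₀ (by omega)
      exact hz _ h3 h2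
  · refine ⟨T, hT, fun c hc h1 => h ⟨c, hc, h1⟩⟩

lemma naturals {k : Type} [Field k] [CharZero k] {f : Polynomial k} (hf : f ≠ 0) :
    ∃ m₀ : ℕ, ∀ m : ℕ, m₀ ≤ m → f.eval (m : k) ≠ 0 := by
  classical
  have hfin : {m : ℕ | f.eval (m : k) = 0}.Finite := by
    have h1 : {m : ℕ | f.eval (m : k) = 0} ⊆ (fun m : ℕ => (m : k)) ⁻¹' (f.roots.toFinset : Set k) := by
      intro m hm
      show (m : k) ∈ (f.roots.toFinset : Set k)
      rw [Finset.mem_coe, Multiset.mem_toFinset, Polynomial.mem_roots hf]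
      exact hm
    exact (Set.Finite.preimage (Nat.cast_injective.injOn) (Finset.finite_toSet _)).subset h1
  obtain ⟨b, hb⟩ := hfin.bddAbove
  refine ⟨b + 1, fun m hm h0 => ?_⟩
  have := hb (show m ∈ {m : ℕ | f.eval (m : k) = 0} from h0)
  omega

/-- a quadratic function is not bounded by a linear one -/
lemma quad_big {δ q C₁ C₂ : ℝ} (hδ : 0 < δ) (hq : 0 < q) (hC₁ : 0 ≤ C₁) (hC₂ : 0 ≤ C₂) {s : ℝ}
    (hs1 : 1 ≤ s) (hs : (C₁ + C₂) / (δ * q) < s) : C₁ * s + C₂ < δ * (s ^ 2 * q) := by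
  rw [div_lt_iff₀ (by positivity)] at hs
  have h1 : C₁ * s + C₂ ≤ (C₁ + C₂) * s := by nlinarith
  have h2 : (C₁ + C₂) * s < s * (δ * q) * s := mul_lt_mul_of_pos_right hs (by linarith)
  have h3 : s * (δ * q) * s = δ * (s ^ 2 * q) := by ring
  linarith

theorem mainA (k : Type) [Field k] [NumberField k] (f : Polynomial k) (hf : Squarefree f)
    (h5 : 5 ≤ f.natDegree) {n : ℕ} (G : MvPolynomial (Fin n) k) (hG : G ≠ 0) (κ ε C : ℝ)
    (hκ : 0 ≤ κ) (hV : VH f G κ ε C (2 ^ (n + 2) * f.natDegree ^ 5)) (S : Finset (ℕ × ℕ))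
    (hS : ∀ p ∈ S, 0 < p.1 ∧ 0 < p.2 ∧ Nat.Coprime p.1 p.2 ∧
      κ * ((((f.natDegree - 1) / 2 - 1 : ℕ) : ℝ) * ((p.1 : ℝ) ^ 2 + (p.2 : ℝ) ^ 2) - 1 / 4) <
        (1 - ε) * ((((f.natDegree - 1) / 2 - 1 : ℕ) : ℝ) * ((p.1 : ℝ) ^ 2 + (p.2 : ℝ) ^ 2)))
    {i j : Fin n} (hij : i ≠ j) : S.card ≤ G.degreeOf j := by
  classical
  set e : ℕ := (f.natDegree - 1) / 2 - 1 with he
  have he1 : 1 ≤ e := by omega
  obtain ⟨d, hd⟩ : ∃ d, d + 1 = 2 * e := ⟨2 * e - 1, by omega⟩
  have hdR : (d : ℝ) + 1 = 2 * e := by exact_mod_cast hd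
  have heR : (1 : ℝ) ≤ e := by exact_mod_cast he1
  obtain ⟨K, j1, j2, j3, A, B, ρ, η, x₀, y₀, g, μ, c, bad, Cst, hfr, hD, hη, hy₀, hg, hgd, hμ,
    hc, hht, htwo⟩ := model k f hf h5 hd
  have hQn := sw_nonsing hD hη
  have hTn := sw_nonsing hD hy₀
  set Q : SPt A B := Affine.Point.some ρ η hQn with hQ
  have hQ0 : Q ≠ 0 := Affine.Point.some_ne_zero _
  have hDk : (0 : ℝ) < finrank ℚ K := deg_pos
  have hlog2 : 0 < Real.log 2 := Real.log_pos (by norm_num)
  -- a point of infinite order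
  obtain ⟨T₀, hT₀, hind⟩ : ∃ T' : SPt A B, ¬ IsOfFinAddOrder T' ∧
      ∀ c : ℤ, c ≠ 0 → (2 : ℤ) • Q ≠ c • T' := by
    obtain ⟨v₂, hv₂⟩ : ∃ v : FinitePlace K, v (2 : K) < 1 := by
      by_contra hcon
      push Not at hcon
      have h1 : ∑ᶠ v : FinitePlace K, Real.log (v.val (2 : K)) = 0 := by
        have : (fun v : FinitePlace K => Real.log (v.val (2 : K))) = fun _ => 0 := by
          funext v
          have h2 : v (2 : K) = 1 := by
            refine le_antisymm ?_ (hcon v)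
            have := na_nat (nonarch v) 2
            exact_mod_cast this
          have h3 : v.val (2 : K) = v (2 : K) := rfl
          rw [h3, h2, Real.log_one]
        rw [this, finsum_zero]
      rw [two_sum] at h1
      have := mul_pos hDk hlog2
      linarith
    refine indep Q (Affine.Point.some x₀ y₀ hTn : SPt A B) ?_
    obtain ⟨t1, t2, t3⟩ := htwo v₂ hv₂
    refine dbl_inf (nonarch v₂) ?_ (Affine.Point.some_ne_zero _) t1 t2 t3
    have h4 : v₂.val (4 : K) = v₂ 2 * v₂ 2 := by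
      rw [show (4 : K) = 2 * 2 by norm_num, v₂.val.map_mul]; rfl
    have h0 : 0 < v₂ (2 : K) := v₂.val.pos two_ne_zero
    rw [h4]
    nlinarith
  have hind' : ∀ m : ℕ, 0 < m → (2 : ℤ) • Q ≠ (m : ℤ) • T₀ ∧ (2 : ℤ) • Q ≠ (-(m : ℤ)) • T₀ := by
    intro m hm
    exact ⟨hind _ (by omega), hind _ (by omega)⟩
  have hmT : ∀ m : ℕ, 0 < m → m • T₀ ≠ 0 := by
    intro m hm h0
    exact hT₀ (isOfFinAddOrder_iff_nsmul_eq_zero.mpr ⟨m, hm, h0⟩)
  have hQmT : ∀ m : ℕ, 0 < m → Q + m • T₀ ≠ 0 := by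
    intro m hm h0
    apply (hind' (2 * m) (by omega)).2
    have h1 : Q = -(m • T₀) := eq_neg_of_add_eq_zero_left h0
    rw [h1]
    push_cast
    rw [← natCast_zsmul, smul_neg, ← mul_smul, neg_smul]
  have hxmT : ∀ m : ℕ, 0 < m → xc (m • T₀) ≠ ρ := by
    intro m hm h0
    obtain ⟨x, y, h, h1⟩ := exists_some (hmT m hm)
    have e1 : (m • T₀).xRep = Q.xRep := by
      rw [h1] at h0
      rw [h1, hQ, Affine.Point.xRep_some, Affine.Point.xRep_some]
      have : x = ρ := h0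
      rw [this]
    rcases Affine.Point.eq_or_eq_neg_of_xRep_eq_xRep e1 with h2 | h2
    · apply (hind' (2 * m) (by omega)).1
      rw [← h2, ← natCast_zsmul, ← mul_smul]
      push_cast
      rfl
    · apply (hind' (2 * m) (by omega)).2
      have h3 : Q = -(m • T₀) := by rw [h2, neg_neg]
      rw [h3, ← natCast_zsmul, smul_neg, ← mul_smul, neg_smul]
      push_cast
      rfl
  set X : ℕ → K := fun m => μ (xc (Q + m • T₀)) with hX
  have hXinj : ∀ m m', 0 < m → 0 < m' → X m = X m' → m = m' := by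
    intro m m' hm hm' he'
    have he'' := hμ he'
    obtain ⟨x, y, h, h1⟩ := exists_some (hQmT m hm)
    obtain ⟨x', y', h', h1'⟩ := exists_some (hQmT m' hm')
    have e1 : (Q + m • T₀).xRep = (Q + m' • T₀).xRep := by
      rw [h1, h1'] at he''
      rw [h1, h1', Affine.Point.xRep_some, Affine.Point.xRep_some]
      have : x = x' := he''
      rw [this]
    rcases Affine.Point.eq_or_eq_neg_of_xRep_eq_xRep e1 with h2 | h2
    · exact injective_nsmul_iff_not_isOfFinAddOrder.mpr hT₀ (add_left_cancel h2)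
    · exfalso
      apply (hind' (m + m') (by omega)).2
      have h3 : (Q + m • T₀) + (Q + m' • T₀) = 0 := by rw [h2, neg_add_cancel]
      have h4 : (2 : ℤ) • Q + ((m + m' : ℕ) : ℤ) • T₀ = 0 := by
        rw [natCast_zsmul, add_smul, two_zsmul, ← h3]
        abel
      rw [neg_smul]
      exact eq_neg_of_add_eq_zero_left h4
  obtain ⟨m₀, hm₀⟩ := naturals (k := K) (f := f.map (algebraMap k K))
    ((Polynomial.map_ne_zero_iff (algebraMap k K).injective).2 hf.ne_zero)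
  set Z : ℕ → K := fun m => ((m + m₀ : ℕ) : K) with hZ
  have hZinj : Function.Injective Z := by
    intro m m' h
    have := Nat.cast_injective (R := K) h
    omega
  have hZf : ∀ m, Polynomial.aeval (Z m) f ≠ 0 := by
    intro m
    have := hm₀ (m + m₀) (by omega)
    rwa [Polynomial.eval_map_algebraMap] at this
  set G' : MvPolynomial (Fin n) K := MvPolynomial.map (algebraMap k K) G with hG'
  have hG'0 : G' ≠ 0 := by
    intro h0
    apply hG
    exact MvPolynomial.map_injective _ (algebraMap k K).injective (by rw [← hG', h0, map_zero])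
  have hdeg : G'.degreeOf j ≤ G.degreeOf j := by
    rw [hG', MvPolynomial.degreeOf_eq_sup, MvPolynomial.degreeOf_eq_sup]
    exact Finset.sup_mono (MvPolynomial.support_map_subset _ _)
  refine le_trans ?_ hdeg
  refine alg2 G' hG'0 hij X hXinj Z hZinj S
    (fun p hp => ⟨(hS p hp).1, (hS p hp).2.1, (hS p hp).2.2.1⟩) ?_
  intro r
  obtain ⟨q, C₀, hC₀, hq1, hq0, hq⟩ := canonical (K := K) hD
  have hqT : 0 < q T₀ := q_pos hq1 hq0 hq hT₀
  obtain ⟨β, hβ⟩ := q_lin hq Q T₀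
  obtain ⟨B0, hB0⟩ := bad_set A B ρ η hg
  obtain ⟨C₂, hC₂⟩ := disc_gen K n
  obtain ⟨M₁, hM₁0, hM₁⟩ := avoid (A := A) (B := B) ({bad, ρ} ∪ g.roots.toFinset)
  set D : ℝ := (finrank ℚ K : ℝ) with hDdef
  set nk : ℝ := (finrank ℚ k : ℝ) with hnk
  have hnk0 : 0 < nk := deg_pos
  set SR : Finset (FinitePlace K) :=
    (Set.Finite.biUnion (Set.toFinite (Set.univ : Set (Fin n)))
      (fun l _ => odd_fin (hZf (r l)))).toFinset with hSR
  have hSRm : ∀ v, v ∈ SR ↔ ∃ l, ¬ Ev v.maximalIdeal (Polynomial.aeval (Z (r l)) f) := by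
    intro v
    rw [hSR, Set.Finite.mem_toFinset]
    simp
  set lN : FinitePlace K → ℝ := fun v => Real.log (Ideal.absNorm v.maximalIdeal.asIdeal : ℝ)
    with hlN
  have hlN0 : ∀ v, 0 ≤ lN v := fun v => Real.log_natCast_nonneg _
  have hqQ0 := hq0 Q
  -- for a single pair
  have hone : ∀ p ∈ S, ∃ t₀ : ℕ, ∀ s : ℕ, t₀ ≤ s → 0 < s →
      MvPolynomial.eval (Function.update (Function.update (fun l => Z (r l)) i (X (p.1 * s))) j
        (X (p.2 * s))) G' = 0 := by
    intro p hp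
    obtain ⟨hp1, hp2, hcop, hpε⟩ := hS p hp
    obtain ⟨C₁, hC₁⟩ := globA (A := A) (B := B) (f := g) hQn hgd p.1 p.2 B0 hB0
    set M : ℝ := (p.1 : ℝ) ^ 2 + (p.2 : ℝ) ^ 2 with hM
    have hp1' : (1 : ℝ) ≤ p.1 := by exact_mod_cast hp1
    have hp2' : (1 : ℝ) ≤ p.2 := by exact_mod_cast hp2
    have hM2 : 2 ≤ M := by
      have h1 : (1 : ℝ) ≤ (p.1 : ℝ) ^ 2 := one_le_pow₀ hp1'
      have h2 : (1 : ℝ) ≤ (p.2 : ℝ) ^ 2 := one_le_pow₀ hp2'
      linarith
    have heM : 2 ≤ (e : ℝ) * M := by nlinarith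
    have hε1 : 0 < 1 - ε := by
      by_contra hcon
      rw [not_lt] at hcon
      have h3 : 0 ≤ κ * ((e : ℝ) * M - 1 / 4) := mul_nonneg hκ (by linarith)
      have h4 : (1 - ε) * ((e : ℝ) * M) ≤ 0 := mul_nonpos_of_nonpos_of_nonneg hcon (by linarith)
      linarith
    set δ : ℝ := (1 - ε) * ((e : ℝ) * M) - κ * ((e : ℝ) * M - 1 / 4) with hδ
    have hδ0 : 0 < δ := by rw [hδ]; linarith
    -- the constants
    set K₁ : ℝ := |((1 - ε) * e - κ * e) * ((p.1 + p.2) * β)| with hK₁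
    set K₂ : ℝ := |(1 - ε) * e * (2 * C₀ + 2 * |Cst| * D) + κ * (e * (2 * C₀) + (2 * C₀) / 4 +
      C₁ / 4 + 1 / 2 * (∑ v ∈ B0, lN v + ∑ v ∈ SR, lN v) + D * C₂ - D * ld k) + C / nk * D| +
      |((1 - ε) * e - κ * e) * (2 * q Q)| with hK₂
    have hK₁0 : 0 ≤ K₁ := abs_nonneg _
    have hK₂0 : 0 ≤ K₂ := add_nonneg (abs_nonneg _) (abs_nonneg _)
    obtain ⟨t₁, ht₁⟩ := exists_nat_gt ((K₁ + K₂) / (δ * q T₀))
    obtain ⟨t₂, ht₂⟩ := exists_nat_gt ((2 * (M₁ + C₀ + q Q)) / q T₀)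
    refine ⟨t₁ + t₂, fun s hs hs0 => ?_⟩
    by_contra hne
    have hs1 : (1 : ℝ) ≤ s := by exact_mod_cast hs0
    have hst1 : (K₁ + K₂) / (δ * q T₀) < s := by
      have : (t₁ : ℝ) ≤ s := by exact_mod_cast (Nat.le_add_right t₁ t₂).trans hs
      linarith
    have hst2 : (2 * (M₁ + C₀ + q Q)) / q T₀ < s := by
      have : (t₂ : ℝ) ≤ s := by exact_mod_cast (Nat.le_add_left t₂ t₁).trans hs
      linarith
    rw [div_lt_iff₀ hqT] at hst2
    set T : SPt A B := s • T₀ with hT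
    have hqs : q T = (s : ℝ) ^ 2 * q T₀ := by rw [hT, q_nsmul hq]
    have hpT : ∀ a : ℕ, a • T = (a * s) • T₀ := fun a => by rw [hT, mul_smul]
    have hbig : ∀ a : ℕ, 0 < a → M₁ < sht (Q + a • T) := by
      intro a ha
      have h1 := q_add_le hq hq0 (Q + a • T) (-Q)
      have h2 : Q + a • T + -Q = a • T := by abel
      have h3 : q (-Q) = q Q := by
        have := q_zsmul hq (-1) Q
        simpa using this
      rw [h2, h3, q_nsmul hq, hqs] at h1
      have h4 := hq1 (Q + a • T)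
      rw [abs_le] at h4
      have ha1 : (1 : ℝ) ≤ (a : ℝ) ^ 2 := one_le_pow₀ (by exact_mod_cast ha)
      have hs2 : (s : ℝ) ≤ (s : ℝ) ^ 2 := by nlinarith
      have h5 : (s : ℝ) * q T₀ ≤ (a : ℝ) ^ 2 * ((s : ℝ) ^ 2 * q T₀) := by
        have h6 : (s : ℝ) * q T₀ ≤ (s : ℝ) ^ 2 * q T₀ := mul_le_mul_of_nonneg_right hs2 hqT.le
        have h7 : 0 ≤ (s : ℝ) ^ 2 * q T₀ := by positivity
        nlinarith
      linarith
    obtain ⟨hP10, hP1z⟩ := hM₁ _ (hbig p.1 hp1)
    obtain ⟨hP20, hP2z⟩ := hM₁ _ (hbig p.2 hp2)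
    rw [Finset.mem_union, Finset.mem_insert, Finset.mem_singleton, not_or, not_or] at hP1z hP2z
    obtain ⟨⟨hb1, hρ1⟩, hg1⟩ := hP1z
    obtain ⟨⟨hb2, hρ2⟩, hg2⟩ := hP2z
    have hroot : ∀ x : K, x ∉ g.roots.toFinset → g.eval x ≠ 0 := by
      intro x hx h0
      apply hx
      rw [Multiset.mem_toFinset, Polynomial.mem_roots hg]
      exact h0
    set P1 : SPt A B := Q + p.1 • T with hP1
    set P2 : SPt A B := Q + p.2 • T with hP2
    have hu1 : uu ρ g P1 ≠ 0 := mul_ne_zero (sub_ne_zero.2 hρ1) (hroot _ hg1)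
    have hu2 : uu ρ g P2 ≠ 0 := mul_ne_zero (sub_ne_zero.2 hρ2) (hroot _ hg2)
    have hps : ∀ a : ℕ, 0 < a → 0 < a * s := fun a ha => Nat.mul_pos ha hs0
    -- the square roots
    set xx : Fin n → K := Function.update (Function.update (fun l => Z (r l)) i (X (p.1 * s))) j
        (X (p.2 * s)) with hxx
    have hxi : xx i = μ (xc P1) := by
      rw [hxx, Function.update_of_ne hij, Function.update_self, hP1, hpT]
    have hxj : xx j = μ (xc P2) := by
      rw [hxx, Function.update_self, hP2, hpT]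
    have hxl : ∀ l, l ≠ i → l ≠ j → xx l = Z (r l) := by
      intro l h1 h2
      rw [hxx, Function.update_of_ne h2, Function.update_of_ne h1]
    set u : Fin n → K := fun l => if l = i then uu ρ g P1 else if l = j then uu ρ g P2 else
      Polynomial.aeval (Z (r l)) f with hu
    have hui : u i = uu ρ g P1 := by simp [hu]
    have huj : u j = uu ρ g P2 := by simp [hu, hij.symm]
    have hul : ∀ l, l ≠ i → l ≠ j → u l = Polynomial.aeval (Z (r l)) f := by
      intro l h1 h2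
      simp [hu, h1, h2]
    have hu0 : ∀ l, u l ≠ 0 := by
      intro l
      by_cases h1 : l = i
      · rw [h1, hui]; exact hu1
      · by_cases h2 : l = j
        · rw [h2, huj]; exact hu2
        · rw [hul l h1 h2]; exact hZf _
    set V : Finset (FinitePlace K) := ((odd_fin hu1).union (odd_fin hu2)).toFinset.filter
      (fun v => v ∉ B0) with hVd
    have hVm : ∀ v, v ∈ V ↔ (¬ Ev v.maximalIdeal (uu ρ g P1) ∨ ¬ Ev v.maximalIdeal (uu ρ g P2)) ∧
        v ∉ B0 := by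
      intro v
      rw [hVd, Finset.mem_filter, Set.Finite.mem_toFinset]
      rfl
    have hglob := hC₁ T (by rw [hT]; exact hmT s hs0)
      (by rw [hpT]; exact hmT _ (hps _ hp1)) (by rw [hpT]; exact hmT _ (hps _ hp2))
      hP10 hP20 (by rw [hpT]; exact hxmT _ (hps _ hp1)) (by rw [hpT]; exact hxmT _ (hps _ hp2))
      hu1 hu2 V (fun v hv => ⟨((hVm v).1 hv).2, ((hVm v).1 hv).1⟩)
    obtain ⟨F', i1, i2, i3, w, hw, hfin, hdisc⟩ := hC₂ u hu0 (V ∪ B0 ∪ SR) (by
      intro v hv l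
      rw [Finset.mem_union, Finset.mem_union, not_or, not_or] at hv
      by_contra hcc
      by_cases h1 : l = i
      · rw [h1, hui] at hcc
        exact hv.1.1 ((hVm v).2 ⟨Or.inl hcc, hv.1.2⟩)
      · by_cases h2 : l = j
        · rw [h2, huj] at hcc
          exact hv.1.1 ((hVm v).2 ⟨Or.inr hcc, hv.1.2⟩)
        · rw [hul l h1 h2] at hcc
          exact hv.2 ((hSRm v).2 ⟨l, hcc⟩))
    let ak : Algebra k F' := ((algebraMap K F').comp (algebraMap k K)).toAlgebra
    have htow : IsScalarTower k K F' := IsScalarTower.of_algebraMap_eq fun x => rfl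
    set yy : Fin n → F' := fun l => if l = i then algebraMap K F' (yc P1 / c (xc P1)) * w i else
      if l = j then algebraMap K F' (yc P2 / c (xc P2)) * w j else w l with hyy
    have hcalc : ∀ P : SPt A B, P ≠ 0 → xc P ≠ bad → (yc P / c (xc P)) ^ 2 * uu ρ g P =
        Polynomial.aeval (μ (xc P)) f := by
      intro P hP hb
      obtain ⟨hc0, hceq⟩ := hc _ hb
      have h1 : yc P ^ 2 = xc P ^ 3 + A * xc P + B := eqn_of_ne hP
      have h2 : uu ρ g P = (xc P - ρ) * g.eval (xc P) := rfl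
      rw [h2, div_pow, h1]
      field_simp
      linear_combination (-1) * hceq
    have hpts : ∀ l, yy l ^ 2 = Polynomial.aeval (algebraMap K F' (xx l)) f := by
      intro l
      rw [Polynomial.aeval_algebraMap_apply]
      by_cases h1 : l = i
      · have e1 : yy l = algebraMap K F' (yc P1 / c (xc P1)) * w i := by simp [hyy, h1]
        rw [e1, h1, hxi, mul_pow, hw, hui, ← map_pow, ← map_mul, hcalc P1 hP10 hb1]
      · by_cases h2 : l = j
        · have e1 : yy l = algebraMap K F' (yc P2 / c (xc P2)) * w j := by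
            simp [hyy, h2, hij.symm]
          rw [e1, h2, hxj, mul_pow, hw, huj, ← map_pow, ← map_mul, hcalc P2 hP20 hb2]
        · have e1 : yy l = w l := by simp [hyy, h1, h2]
          rw [e1, hw, hul l h1 h2, hxl l h1 h2]
    have hvoj := VH_transfer hκ hV F' (fun l => algebraMap K F' (xx l)) yy hpts (by
      rw [← finrank_mul_finrank k K F']
      calc finrank k K * finrank K F' ≤ (4 * f.natDegree ^ 5) * 2 ^ n := Nat.mul_le_mul hfr hfin
        _ = _ := by ring) (by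
      have e3 : MvPolynomial.aeval (fun l => algebraMap K F' (xx l)) G =
          algebraMap K F' (MvPolynomial.eval xx G') := by
        rw [hG', MvPolynomial.eval_map, ← MvPolynomial.aeval_def]
        exact MvPolynomial.aeval_algebraMap_apply F' xx G
      rw [e3, _root_.map_ne_zero]
      exact hne)
    -- the sum of the heights
    have hsumge : hh (xc P1) + hh (xc P2) - 2 * |Cst| ≤
        ∑ l, hh (algebraMap K F' (xx l)) := by
      have e1 : ∀ l, hh (algebraMap K F' (xx l)) = hh (xx l) := fun l => hh_ext F' (xx l)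
      simp_rw [e1]
      have e2 : hh (xx i) + hh (xx j) ≤ ∑ l, hh (xx l) := by
        calc hh (xx i) + hh (xx j) = ∑ l ∈ {i, j}, hh (xx l) := by rw [Finset.sum_pair hij]
          _ ≤ _ := Finset.sum_le_sum_of_subset_of_nonneg (Finset.subset_univ _)
              fun l _ _ => hh_nonneg _
      have e3 := hht (xc P1)
      have e4 := hht (xc P2)
      rw [← hxi, abs_le] at e3
      rw [← hxj, abs_le] at e4
      have e5 := le_abs_self Cst
      linarith
    have hsh1 : sht P1 = hh (xc P1) * D := sht_hh hP10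
    have hsh2 : sht P2 = hh (xc P2) * D := sht_hh hP20
    have hsumV : ∑ v ∈ V ∪ B0 ∪ SR, lN v ≤
        ∑ v ∈ V, lN v + ∑ v ∈ B0, lN v + ∑ v ∈ SR, lN v := by
      have sun : ∀ S S' : Finset (FinitePlace K), ∑ v ∈ S ∪ S', lN v ≤
          ∑ v ∈ S, lN v + ∑ v ∈ S', lN v := by
        intro S S'
        rw [← Finset.sum_union_inter]
        have : 0 ≤ ∑ v ∈ S ∩ S', lN v := Finset.sum_nonneg fun v _ => hlN0 _
        linarith
      have h1 := sun (V ∪ B0) SR
      have h2 := sun V B0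
      linarith
    have hld1 : ld F' ≤ (1 / 2 * (∑ v ∈ V, lN v + ∑ v ∈ B0, lN v + ∑ v ∈ SR, lN v)) / D + C₂ := by
      refine hdisc.trans ?_
      gcongr
    rw [hdR] at hglob
    -- the canonical heights
    have hqP : ∀ a : ℕ, q (Q + a • T) = q Q + (a * s) * β + (a : ℝ) ^ 2 * (s ^ 2 * q T₀) := by
      intro a
      rw [hpT, hβ]
      push_cast
      ring
    have hqP1 := hqP p.1
    have hqP2 := hqP p.2
    have a1 := hq1 P1
    have a2 := hq1 P2
    have a3 := hq1 T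
    rw [← hP1] at hqP1
    rw [← hP2] at hqP2
    rw [abs_le] at a1 a2 a3
    set W : ℝ := q P1 + q P2 with hW
    have hWeq : W = M * (s ^ 2 * q T₀) + s * ((p.1 + p.2) * β) + 2 * q Q := by
      rw [hW, hqP1, hqP2, hM]
      ring
    have hfinal := arithA (e := e) (κ := κ) (ε := ε) (M := W) (D := D) (S1 := sht P1)
      (S2 := sht P2) (tT := sht T) (lF := ld F') (lk := ld k) (C₀ := 2 * C₀) (C₁ := C₁) (C₂ := C₂)
      (C := C / nk) (SV := ∑ v ∈ V, lN v) (SB := ∑ v ∈ B0, lN v) (SR := ∑ v ∈ SR, lN v)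
      (cs := |Cst|) (P1 := hh (xc P1)) (P2 := hh (xc P2))
      (sg := ∑ l, hh (algebraMap K F' (xx l))) (qT := s ^ 2 * q T₀)
      hDk (by linarith) hκ hε1.le hvoj hsumge hsh1 hsh2 hld1 hglob
      (by linarith) (by linarith) (by rw [← hqs]; linarith)
    have hlin : δ * (s ^ 2 * q T₀) ≤ K₁ * s + K₂ := by
      have e1 : ((1 - ε) * e - κ * e) * W + κ * (s ^ 2 * q T₀) / 4 = δ * (s ^ 2 * q T₀) +
          (((1 - ε) * e - κ * e) * ((p.1 + p.2) * β)) * s +
            ((1 - ε) * e - κ * e) * (2 * q Q) := by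
        rw [hWeq, hδ]
        ring
      rw [e1] at hfinal
      have e2 := neg_abs_le (((1 - ε) * e - κ * e) * ((p.1 + p.2) * β))
      have e3 := neg_abs_le (((1 - ε) * e - κ * e) * (2 * q Q))
      have e4 := le_abs_self ((1 - ε) * e * (2 * C₀ + 2 * |Cst| * D) +
        κ * (e * (2 * C₀) + (2 * C₀) / 4 +
        C₁ / 4 + 1 / 2 * (∑ v ∈ B0, lN v + ∑ v ∈ SR, lN v) + D * C₂ - D * ld k) + C / nk * D)
      have e5 : -K₁ * s ≤ (((1 - ε) * e - κ * e) * ((p.1 + p.2) * β)) * s :=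
        mul_le_mul_of_nonneg_right e2 (by linarith)
      rw [hK₂]
      linarith
    have hlt := quad_big hδ0 hqT hK₁0 hK₂0 hs1 hst1
    linarith
  choose! t₀ ht₀ using hone
  refine ⟨∑ p ∈ S, t₀ p, fun s hs hs0 p hp => ht₀ p hp s ?_ hs0⟩
  exact (Finset.single_le_sum (f := t₀) (fun _ _ => Nat.zero_le _) hp).trans hs

end Pool.Agent.NH29.HY
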