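import Mathlib
import Pool.Agent.NH29.HY.Com

set_option autoImplicit false
set_option linter.unusedSectionVars false

/-!
The error term of Vojta's inequality on a hyperelliptic curve.
-/

namespace Pool.Agent.NH29.HY

open NumberField WeierstrassCurve IsDedekindDomain Height Function Module
open Pool.Agent.TH942 Pool.Agent.TH954 Pool.Agent.NH29.VE Pool.Agent.Y733.VR

/-- real arithmetic: the height is at most a constant times `4 ^ j` -/
lemma log_bound {x a b : ℝ} {j : ℕ} (hx : 0 < x) (ha : 0 ≤ a) (hb : 0 ≤ b)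
    (h : x ≤ a * 4 ^ j + b) : Real.log x ≤ 2 * j * Real.log 2 + Real.log (a + b + 1) := by
  have h4 : (1 : ℝ) ≤ 4 ^ j := one_le_pow₀ (by norm_num)
  have h1 : x ≤ (a + b + 1) * 4 ^ j := by nlinarith
  have h2 := Real.log_le_log hx h1
  rw [Real.log_mul (by positivity) (by positivity), Real.log_pow] at h2
  have h3 : Real.log 4 = 2 * Real.log 2 := by
    rw [show (4 : ℝ) = 2 ^ 2 by norm_num, Real.log_pow]
    norm_num
  rw [h3] at h2
  linarith

lemma arithB {l SV SB D C₁ C₂ e s j L x G : ℝ} (hD : 0 < D)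
    (h1 : l ≤ (1 / 2 * (SV + SB)) / D + C₂) (h2 : 2 * SV + G ≤ 2 * (2 * e) * s + C₁)
    (h3 : 2 * j * (D * L) ≤ G) (h4 : s = x * D) :
    l ≤ e * x - 1 / 2 * j * L + (1 / 2 * SB) / D + C₁ / (4 * D) + C₂ := by
  have h5 : (1 / 2 * (SV + SB)) / D ≤ (1 / 4 * (2 * (2 * e) * s + C₁ -
      2 * j * (D * L)) + 1 / 2 * SB) / D := by
    gcongr
    linarith
  have h6 : (1 / 4 * (2 * (2 * e) * s + C₁ -
    2 * j * (D * L)) + 1 / 2 * SB) / D = e * x - 1 / 2 * j * L +
      (1 / 2 * SB) / D + C₁ / (4 * D) := by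
    rw [h4]
    field_simp
    ring
  linarith

theorem mainB (k : Type) [Field k] [NumberField k] (f : Polynomial k) (hf : Squarefree f)
    (h5 : 5 ≤ f.natDegree) :
    ∃ c : ℝ, ∀ H : ℝ, ∃ (F : Type) (_ : Field F) (_ : NumberField F) (_ : Algebra k F) (x y : F),
      y ^ 2 = Polynomial.aeval x f ∧ finrank k F ≤ 8 * f.natDegree ^ 5 ∧
      IntermediateField.adjoin k {x, y} = ⊤ ∧
      H ≤ (((f.natDegree - 1) / 2 - 1 : ℕ) : ℝ) * (logHeight₁ x / finrank k F) ∧
      lD k F + finrank ℚ k / 4 *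
        Real.log ((((f.natDegree - 1) / 2 - 1 : ℕ) : ℝ) * (logHeight₁ x / finrank k F)) ≤
        (((f.natDegree - 1) / 2 - 1 : ℕ) : ℝ) * (logHeight₁ x / finrank k F) + c := by
  classical
  set e : ℕ := (f.natDegree - 1) / 2 - 1 with he
  have he1 : 1 ≤ e := by omega
  obtain ⟨d, hd⟩ : ∃ d, d + 1 = 2 * e := ⟨2 * e - 1, by omega⟩
  have hdR : (d : ℝ) + 1 = 2 * e := by exact_mod_cast hd
  have heR : (1 : ℝ) ≤ e := by exact_mod_cast he1
  obtain ⟨K, j1, j2, j3, A, B, ρ, η, x₀, y₀, g, μ, c, bad, Cst, hfr, hD, hη, hy₀, hg, hgd, hμ,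
    hc, hht, htwo⟩ := model k f hf h5 hd
  have hQn := sw_nonsing hD hη
  have hTn := sw_nonsing hD hy₀
  set Q : SPt A B := Affine.Point.some ρ η hQn with hQ
  set T : SPt A B := Affine.Point.some x₀ y₀ hTn with hT
  have hT0 : T ≠ 0 := Affine.Point.some_ne_zero _
  have hxT : xc T = x₀ := rfl
  -- a place above `2`
  have hDk : (0 : ℝ) < finrank ℚ K := deg_pos
  have hlog2 : 0 < Real.log 2 := Real.log_pos (by norm_num)
  obtain ⟨v₂, hv₂⟩ : ∃ v : FinitePlace K, v (2 : K) < 1 := by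
    by_contra hcon
    push Not at hcon
    have h1 : ∑ᶠ v : FinitePlace K, Real.log (v.val (2 : K)) = 0 := by
      have : (fun v : FinitePlace K => Real.log (v.val (2 : K))) = fun _ => 0 := by
        funext v
        have h2 : v (2 : K) = 1 := by
          refine le_antisymm ?_ (hcon v)
          have := na_nat (nonarch v) 2
          exact_mod_cast this
        have h3 : v.val (2 : K) = v (2 : K) := rfl
        rw [h3, h2, Real.log_one]
      rw [this, finsum_zero]
    rw [two_sum] at h1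
    have := mul_pos hDk hlog2
    linarith
  have hdbl : ∀ v : FinitePlace K, v (2 : K) < 1 → ∀ j : ℕ,
      2 ^ j • T ≠ 0 ∧ v.val (xc (2 ^ j • T)) * v.val 4 ^ j = v.val x₀ := by
    intro v hv j
    obtain ⟨t1, t2, t3⟩ := htwo v hv
    exact dbl (nonarch v) hT0 t1 t2 t3 j
  have hTinf : ¬ IsOfFinAddOrder T := by
    obtain ⟨t1, t2, t3⟩ := htwo v₂ hv₂
    refine dbl_inf (nonarch v₂) ?_ hT0 t1 t2 t3
    have h4 : v₂.val (4 : K) = v₂ 2 * v₂ 2 := by
      rw [show (4 : K) = 2 * 2 by norm_num, v₂.val.map_mul]; rfl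
    have h0 : 0 < v₂ (2 : K) := v₂.val.pos two_ne_zero
    rw [h4]
    nlinarith
  obtain ⟨q, C₀, hC₀, hq1, hq0, hq⟩ := canonical (K := K) hD
  have hqT : 0 < q T := q_pos hq1 hq0 hq hTinf
  obtain ⟨B0, hB0⟩ := bad_set A B ρ η hg
  obtain ⟨C₁, hC₁⟩ := globB (A := A) (B := B) (f := g) hQn hgd B0 hB0
  obtain ⟨C₂, hC₂⟩ := disc_gen K 1
  obtain ⟨M₁, hM₁0, hM₁⟩ := avoid (A := A) (B := B) ({bad, ρ} ∪ g.roots.toFinset)
  set D : ℝ := (finrank ℚ K : ℝ) with hDdef
  -- the constants
  set nk : ℝ := (finrank ℚ k : ℝ) with hnk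
  have hnk0 : 0 < nk := deg_pos
  set a₁ : ℝ := nk * e * (2 * q T / D) with ha₁
  set b₁ : ℝ := nk * e * ((2 * q Q + C₀) / D + |Cst|) with hb₁
  have ha₁0 : 0 ≤ a₁ := by positivity
  have hb₁0 : 0 ≤ b₁ := by
    have := hq0 Q
    positivity
  set C₃ : ℝ := (1 / 2 * ∑ v ∈ B0, Real.log (Ideal.absNorm v.maximalIdeal.asIdeal : ℝ)) / D +
    C₁ / (4 * D) + C₂ - ld k + e * |Cst| with hC₃
  refine ⟨nk * C₃ + nk / 4 * Real.log (a₁ + b₁ + 1), fun H => ?_⟩
  -- choose `j`
  obtain ⟨j, hj⟩ := exists_nat_gt ((2 * (M₁ + C₀ + D * (|H| / nk + |Cst| + 1) + q Q)) / q T)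
  have hj1 : (2 * (M₁ + C₀ + D * (|H| / nk + |Cst| + 1) + q Q)) < q T * 4 ^ j := by
    rw [div_lt_iff₀ hqT] at hj
    have h1 : (j : ℝ) ≤ 4 ^ j := by
      have h2 : j < 4 ^ j := Nat.lt_pow_self (by norm_num)
      exact_mod_cast h2.le
    have h2 : (j : ℝ) * q T ≤ 4 ^ j * q T := mul_le_mul_of_nonneg_right h1 hqT.le
    linarith
  set R : SPt A B := 2 ^ j • T with hR
  have hqR : q R = 4 ^ j * q T := by
    rw [hR, q_nsmul hq]
    push_cast
    rw [← pow_mul, mul_comm j 2, pow_mul]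
    norm_num
  have hqQR1 : q (Q + R) ≤ 2 * (q Q + q R) := q_add_le hq hq0 Q R
  have hqQR2 : q R ≤ 2 * (q (Q + R) + q Q) := by
    have h1 := q_add_le hq hq0 (Q + R) (-Q)
    have h2 : Q + R + -Q = R := by abel
    have h3 : q (-Q) = q Q := by
      have := q_zsmul hq (-1) Q
      simpa using this
    rwa [h2, h3] at h1
  have hX0 : 0 ≤ |H| / nk + |Cst| + 1 := by positivity
  have hXpos : 0 ≤ D * (|H| / nk + |Cst| + 1) := mul_nonneg hDk.le hX0
  have hqQ0 := hq0 Q
  have hbig1 : M₁ + C₀ + D * (|H| / nk + |Cst| + 1) < q (Q + R) := by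
    rw [hqR] at hqQR2
    linarith
  have hq1R := hq1 R
  have hq1QR := hq1 (Q + R)
  rw [abs_le] at hq1R hq1QR
  have hsQR : M₁ + D * (|H| / nk + |Cst| + 1) < sht (Q + R) := by linarith
  have hsR : M₁ < sht R := by
    rw [hqR] at hq1R
    linarith
  obtain ⟨hR0, hRz⟩ := hM₁ R hsR
  obtain ⟨hQR0, hQRz⟩ := hM₁ (Q + R) (by linarith)
  rw [Finset.mem_union, Finset.mem_insert, Finset.mem_singleton, not_or, not_or] at hRz hQRz
  obtain ⟨⟨-, hxR⟩, -⟩ := hRz
  obtain ⟨⟨hXbad, hXρ⟩, hXg⟩ := hQRz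
  set X : K := xc (Q + R) with hX
  have hgX : g.eval X ≠ 0 := by
    intro h0
    apply hXg
    rw [Multiset.mem_toFinset, Polynomial.mem_roots hg]
    exact h0
  have hu : uu ρ g (Q + R) ≠ 0 := mul_ne_zero (sub_ne_zero.2 hXρ) hgX
  -- the places
  set V : Finset (FinitePlace K) := (odd_fin hu).toFinset.filter (fun v => v ∉ B0) with hV
  have hVm : ∀ v, v ∈ V ↔ ¬ Ev v.maximalIdeal (uu ρ g (Q + R)) ∧ v ∉ B0 := by
    intro v
    rw [hV, Finset.mem_filter, Set.Finite.mem_toFinset]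
    rfl
  have hglob := hC₁ R hR0 hQR0 hxR hu V (fun v hv => ⟨((hVm v).1 hv).2, ((hVm v).1 hv).1⟩)
  obtain ⟨F', i1, i2, i3, w, hw, hfin, hdisc⟩ := hC₂ (fun _ => uu ρ g (Q + R)) (fun _ => hu)
    (V ∪ B0) (by
      intro v hv l
      rw [Finset.mem_union, not_or] at hv
      by_contra hc
      exact hv.1 ((hVm v).2 ⟨hc, hv.2⟩))
  -- the point
  let ak : Algebra k F' := ((algebraMap K F').comp (algebraMap k K)).toAlgebra
  have htow : IsScalarTower k K F' := IsScalarTower.of_algebraMap_eq fun x => rfl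
  obtain ⟨hc0, hceq⟩ := hc X hXbad
  set xF : F' := algebraMap K F' (μ X) with hxF
  set yF : F' := algebraMap K F' (yc (Q + R) / c X) * w 0 with hyF
  have hpt : yF ^ 2 = Polynomial.aeval xF f := by
    rw [hyF, mul_pow, hw, ← map_pow, ← map_mul, hxF, Polynomial.aeval_algebraMap_apply]
    congr 1
    have h1 : yc (Q + R) ^ 2 = X ^ 3 + A * X + B := eqn_of_ne hQR0
    have h2 : uu ρ g (Q + R) = (X - ρ) * g.eval X := rfl
    rw [h2, div_pow, h1]
    field_simp
    linear_combination (-1) * hceq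
  obtain ⟨sf1, sf2, sf3⟩ := sub_field k (F := F') {xF, yF}
  set F := IntermediateField.adjoin k ({xF, yF} : Set F') with hF
  have hxm : xF ∈ F := IntermediateField.subset_adjoin k _ (by simp)
  have hym : yF ∈ F := IntermediateField.subset_adjoin k _ (by simp)
  have hfd : FiniteDimensional k F' := FiniteDimensional.right ℚ k F'
  have hhx : hh (⟨xF, hxm⟩ : F) = hh (μ X) := by
    rw [← sf3 ⟨xF, hxm⟩]
    exact hh_ext F' (μ X)
  have hlog : logHeight₁ (⟨xF, hxm⟩ : F) / finrank k F = nk * hh (μ X) := by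
    rw [log_div, hhx]
  -- heights
  have hhX : sht (Q + R) = hh X * D := sht_hh hQR0
  have hcmp := hht X
  rw [abs_le] at hcmp
  have habs := le_abs_self Cst
  have hup : hh (μ X) ≤ hh X + |Cst| := by linarith
  have hlow : hh X - |Cst| ≤ hh (μ X) := by linarith
  have hhX2 : hh X = sht (Q + R) / D := by
    rw [hhX]; field_simp
  refine ⟨F, inferInstance, inferInstance, inferInstance, ⟨xF, hxm⟩, ⟨yF, hym⟩, ?_, ?_, ?_, ?_, ?_⟩
  · apply Subtype.ext
    have h1 : ((Polynomial.aeval (⟨xF, hxm⟩ : F) f : F) : F') = Polynomial.aeval xF f :=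
      (Polynomial.aeval_algebraMap_apply F' (⟨xF, hxm⟩ : F) f).symm
    rw [h1]
    exact hpt
  · refine sf1.trans ?_
    rw [← finrank_mul_finrank k K F']
    calc finrank k K * finrank K F' ≤ (4 * f.natDegree ^ 5) * 2 ^ 1 := Nat.mul_le_mul hfr hfin
      _ = _ := by ring
  · refine adjoin_self_top ({xF, yF} : Set F') _ ?_
    rw [Set.image_insert_eq, Set.image_singleton]
  · rw [hlog]
    have h1 : |H| / nk + |Cst| + 1 ≤ hh X := by
      rw [hhX2, le_div_iff₀ hDk]
      linarith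
    have h2 : |H| / nk ≤ hh (μ X) := by linarith
    have h3 : |H| ≤ nk * hh (μ X) := by
      rw [div_le_iff₀ hnk0] at h2
      linarith
    have h4 : nk * hh (μ X) ≤ e * (nk * hh (μ X)) :=
      le_mul_of_one_le_left ((abs_nonneg H).trans h3) heR
    exact (le_abs_self H).trans (h3.trans h4)
  · rw [hlog]
    have h1 : |H| / nk + |Cst| + 1 ≤ hh X := by
      rw [hhX2, le_div_iff₀ hDk]
      linarith
    have hHn : 0 ≤ |H| / nk := by positivity
    have hμpos : 0 < hh (μ X) := by linarith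
    set t : ℝ := e * (nk * hh (μ X)) with ht
    have ht0 : 0 < t := by positivity
    -- upper bound of the height
    have hsup : sht (Q + R) ≤ 2 * q T * 4 ^ j + (2 * q Q + C₀) := by
      rw [hqR] at hqQR1
      linarith
    have htup : t ≤ a₁ * 4 ^ j + b₁ := by
      have h2 : hh X ≤ (2 * q T * 4 ^ j + (2 * q Q + C₀)) / D := by
        rw [hhX2]
        gcongr
      have h3 : hh (μ X) ≤ (2 * q T * 4 ^ j + (2 * q Q + C₀)) / D + |Cst| := by linarith
      calc t = nk * e * hh (μ X) := by rw [ht]; ring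
        _ ≤ nk * e * ((2 * q T * 4 ^ j + (2 * q Q + C₀)) / D + |Cst|) :=
            mul_le_mul_of_nonneg_left h3 (by positivity)
        _ = a₁ * 4 ^ j + b₁ := by
            rw [ha₁, hb₁]
            field_simp
            ring
    have hlogt := log_bound ht0 ha₁0 hb₁0 htup
    -- the gain at the places above `2`
    have hgain : 2 * j * (D * Real.log 2) ≤ ∑ v ∈ B0, Real.log (xm v.val R) := by
      have h2 : ∑ᶠ v : FinitePlace K, Real.log (v.val (2 : K)) =
          ∑ v ∈ B0, Real.log (v.val (2 : K)) := by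
        refine finsum_eq_sum_of_support_subset _ ?_
        intro v hv
        by_contra hc'
        apply hv
        have h3 : v.val (2 : K) = 1 := (hB0 v hc').h2
        show Real.log (v.val (2 : K)) = 0
        rw [h3, Real.log_one]
      rw [two_sum] at h2
      have h3 : 2 * j * (D * Real.log 2) = ∑ v ∈ B0, (-(2 * j) * Real.log (v.val (2 : K))) := by
        rw [← Finset.mul_sum, ← h2]
        ring
      rw [h3]
      refine Finset.sum_le_sum fun v hv => ?_
      have h20 : 0 < v.val (2 : K) := v.val.pos two_ne_zero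
      have h21 : v.val (2 : K) ≤ 1 := by exact_mod_cast na_nat (nonarch v) 2
      have hxm1 := one_le_xm v.val R
      rcases h21.eq_or_lt with h2e | h2l
      · rw [h2e, Real.log_one, mul_zero]
        exact Real.log_nonneg hxm1
      · obtain ⟨-, hd2⟩ := hdbl v h2l j
        obtain ⟨t1, -, -⟩ := htwo v h2l
        have h4 : v.val (4 : K) = v.val 2 ^ 2 := by
          rw [show (4 : K) = 2 ^ 2 by norm_num, v.val.map_pow]
        rw [← hR, h4] at hd2
        have hx0 : 1 < v.val x₀ := t1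
        have hxR0 : 0 < v.val (xc R) := by
          rcases (v.val.nonneg (xc R)).eq_or_lt with h | h
          · rw [← h, zero_mul] at hd2
            linarith
          · exact h
        have h5 := congrArg Real.log hd2
        rw [Real.log_mul hxR0.ne' (by positivity), ← pow_mul, Real.log_pow] at h5
        have h6 : 0 < Real.log (v.val x₀) := Real.log_pos hx0
        have h7 : Real.log (v.val (xc R)) ≤ Real.log (xm v.val R) := by
          refine Real.log_le_log hxR0 ?_
          rw [xm_xc _ hR0]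
          exact le_max_left _ _
        push_cast at h5
        linarith
    -- the discriminant
    have hsumV : ∑ v ∈ V ∪ B0, Real.log (Ideal.absNorm v.maximalIdeal.asIdeal : ℝ) ≤
        ∑ v ∈ V, Real.log (Ideal.absNorm v.maximalIdeal.asIdeal : ℝ) +
          ∑ v ∈ B0, Real.log (Ideal.absNorm v.maximalIdeal.asIdeal : ℝ) := by
      rw [← Finset.sum_union_inter]
      have : 0 ≤ ∑ v ∈ V ∩ B0, Real.log (Ideal.absNorm v.maximalIdeal.asIdeal : ℝ) :=
        Finset.sum_nonneg fun v _ => Real.log_natCast_nonneg _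
      linarith
    set SV : ℝ := ∑ v ∈ V, Real.log (Ideal.absNorm v.maximalIdeal.asIdeal : ℝ) with hSV
    set SB : ℝ := ∑ v ∈ B0, Real.log (Ideal.absNorm v.maximalIdeal.asIdeal : ℝ) with hSB
    have hld1 : ld F' ≤ (1 / 2 * (SV + SB)) / D + C₂ := by
      refine hdisc.trans ?_
      gcongr
    rw [hdR] at hglob
    have hld2 := arithB hDk hld1 hglob hgain hhX
    have hldF : ld F ≤ ld F' := sf2
    have hldk : ld F - ld k ≤ e * hh (μ X) - 1 / 2 * j * Real.log 2 + C₃ := by
      have h2 : (e : ℝ) * hh X ≤ e * hh (μ X) + e * |Cst| := by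
        have := mul_le_mul_of_nonneg_left hlow (by positivity : (0 : ℝ) ≤ e)
        linarith
      rw [hC₃]
      linarith
    have hlD : lD k F ≤ t - nk * (1 / 2 * j * Real.log 2) + nk * C₃ := by
      rw [lD_eq]
      have := mul_le_mul_of_nonneg_left hldk hnk0.le
      calc nk * (ld F - ld k) ≤ nk * (e * hh (μ X) - 1 / 2 * j * Real.log 2 + C₃) := this
        _ = _ := by rw [ht]; ring
    have hfin2 : nk / 4 * Real.log t ≤ nk / 4 * (2 * j * Real.log 2 + Real.log (a₁ + b₁ + 1)) :=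
      mul_le_mul_of_nonneg_left hlogt (by positivity)
    have e1 : nk / 4 * (2 * j * Real.log 2 + Real.log (a₁ + b₁ + 1)) =
        nk * (1 / 2 * j * Real.log 2) + nk / 4 * Real.log (a₁ + b₁ + 1) := by ring
    linarith

end Pool.Agent.NH29.HY
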